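import Pool.Agent.JWW.Step

/-!
# The induction over the sets of vertices, second part
-/

set_option autoImplicit false

namespace Pool.Agent.JWW

variable {V : Type} [Fintype V] [DecidableEq V] {G : SimpleGraph V} [DecidableRel G.Adj]
variable {NN : ℕ} {hd : ℕ → ℕ × ℕ} {grps : List Grp} {sts : List ℕ}

/-- the only pole at an outer vertex with one neighbour in `S` -/
theorem one_pole {S : Finset V} {v : V} (h1 : nb G S v = 1) {e e' : Sym2 V}
    (he : e ∈ inc G v) (he2 : e ∈ es G S) (he' : e' ∈ inc G v) (he2' : e' ∈ es G S) : e = e' := by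
  unfold nb at h1
  rw [Finset.card_eq_one] at h1
  obtain ⟨x, hx⟩ := h1
  have a : e ∈ ({x} : Finset (Sym2 V)) := by rw [← hx, Finset.mem_inter]; exact ⟨he, he2⟩
  have b : e' ∈ ({x} : Finset (Sym2 V)) := by rw [← hx, Finset.mem_inter]; exact ⟨he', he2'⟩
  rw [Finset.mem_singleton] at a b
  rw [a, b]

theorem third (hG : G.IsRegularOfDegree 3) {S : Finset V} {v : V} (h1 : nb G S v = 1) {g : Sym2 V}
    (hg : g ∈ inc G v) (hgS : g ∉ es G S) :
    ∃ n, n ∈ inc G v ∧ n ∉ es G S ∧ n ≠ g ∧ ∀ e ∈ inc G v, e ∉ es G S → e = g ∨ e = n := by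
  have h2 := card_sdiff_inc hG S v
  have h3 : (inc G v \ es G S).card = 2 := by omega
  rw [Finset.card_eq_two] at h3
  obtain ⟨x, y, hxy, h3⟩ := h3
  have hmem : ∀ e, (e ∈ inc G v ∧ e ∉ es G S) ↔ (e = x ∨ e = y) := by
    intro e
    rw [← Finset.mem_sdiff, h3]
    simp
  rcases (hmem g).1 ⟨hg, hgS⟩ with rfl | rfl
  · exact ⟨y, ((hmem y).2 (Or.inr rfl)).1, ((hmem y).2 (Or.inr rfl)).2, hxy.symm,
      fun e he he' => (hmem e).1 ⟨he, he'⟩⟩
  · exact ⟨x, ((hmem x).2 (Or.inl rfl)).1, ((hmem x).2 (Or.inl rfl)).2, hxy,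
      fun e he he' => ((hmem e).1 ⟨he, he'⟩).symm⟩

theorem double_aux (hc : Cert NN hd grps sts) (hG : G.IsRegularOfDegree 3) {S : Finset V} {v w : V}
    (hv : v ∉ S) (hw : w ∉ S) (hvw : v ≠ w) {k : ℕ} (hk : k < NN) (hp : (hd k).1 = 4)
    {t : ℕ → Sym2 V} (t1 : ∀ i < 4, ∀ j < 4, t i = t j → i = j)
    (t2 : ∀ e, e ∈ bd G S ↔ ∃ i < 4, t i = e) (t3 : Real sts (es G S) S t (hd k))
    (nv : nb G S v = 1) (nw : nb G S w = 1) {g : Sym2 V} (hg : g ∈ G.edgeFinset) (hgv : v ∈ g)
    (hgw : w ∈ g) {a b : ℕ} (ha : a < 4) (hb : b < 4) (hab : a < b) (hta : v ∈ t a) (htb : w ∈ t b) :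
    ∃ k' < NN, Has hd sts G (insert w (insert v S)) k' := by
  have hgS : g ∉ es G S := by
    intro h
    obtain ⟨-, x, hx, hx'⟩ := (mem_es G).1 h
    rcases ends hg hgv hgw hvw hx' with h | h
    · exact hv (h ▸ hx)
    · exact hw (h ▸ hx)
  obtain ⟨n1, v1, v2, v3, v4⟩ := third hG nv ((mem_inc G).2 ⟨hg, hgv⟩) hgS
  obtain ⟨n2, w1, w2, w3, w4⟩ := third hG nw ((mem_inc G).2 ⟨hg, hgw⟩) hgS
  -- an edge at both vertices is `g`
  have hboth : ∀ e, e ∈ inc G v → e ∈ inc G w → e = g := by
    intro e h h'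
    have h1 := (Sym2.mem_and_mem_iff hvw).1 ⟨((mem_inc G).1 h).2, ((mem_inc G).1 h').2⟩
    have h2 := (Sym2.mem_and_mem_iff hvw).1 ⟨hgv, hgw⟩
    rw [h1, h2]
  have hta' : t a ∈ inc G v ∧ t a ∈ es G S := by
    have h1 := (t2 (t a)).2 ⟨a, ha, rfl⟩
    exact ⟨(mem_inc G).2 ⟨((mem_bd G).1 h1).1, hta⟩, bd_subset_es S h1⟩
  have htb' : t b ∈ inc G w ∧ t b ∈ es G S := by
    have h1 := (t2 (t b)).2 ⟨b, hb, rfl⟩
    exact ⟨(mem_inc G).2 ⟨((mem_bd G).1 h1).1, htb⟩, bd_subset_es S h1⟩
  have hva : ∀ e ∈ inc G v, e ∈ es G S → e = t a := fun e h h' => one_pole nv h h' hta'.1 hta'.2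
  have hwb : ∀ e ∈ inc G w, e ∈ es G S → e = t b := fun e h h' => one_pole nw h h' htb'.1 htb'.2
  have hn12 : n1 ≠ n2 := by
    intro h
    exact v3 (hboth n1 v1 (h ▸ w1))
  obtain ⟨⟨ti, hti⟩, hτ⟩ := tl_double b hb a hab
  have hn : ∀ x < 3, (fun x => if x = 0 then g else if x = 1 then n1 else n2) x ∈ G.edgeFinset ∧
      (fun x => if x = 0 then g else if x = 1 then n1 else n2) x ∉ es G S := by
    intro x hx
    beta_reduce
    split_ifs
    · exact ⟨hg, hgS⟩
    · exact ⟨((mem_inc G).1 v1).1, v2⟩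
    · exact ⟨((mem_inc G).1 w1).1, w2⟩
  refine step hc (n := fun x => if x = 0 then g else if x = 1 then n1 else n2) hk hp t1 t2 t3 hti hτ
    hn ?_ ?_ ?_ ?_
  · intro x hx y hy h
    have hx' : x = 0 ∨ x = 1 ∨ x = 2 := by omega
    have hy' : y = 0 ∨ y = 1 ∨ y = 2 := by omega
    rcases hx' with rfl | rfl | rfl <;> rcases hy' with rfl | rfl | rfl
    · rfl
    · exact absurd (show g = n1 from h).symm v3
    · exact absurd (show g = n2 from h).symm w3
    · exact absurd (show n1 = g from h) v3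
    · rfl
    · exact absurd (show n1 = n2 from h) hn12
    · exact absurd (show n2 = g from h) w3
    · exact absurd (show n2 = n1 from h).symm hn12
    · rfl
  · intro e
    rw [es_insert, es_insert, Finset.mem_union, Finset.mem_union]
    constructor
    · rintro ((h | h) | h)
      · exact Or.inl h
      · by_cases he : e ∈ es G S
        · exact Or.inl he
        · rcases v4 e h he with rfl | rfl
          · exact Or.inr ⟨0, by norm_num, rfl⟩
          · exact Or.inr ⟨1, by norm_num, rfl⟩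
      · by_cases he : e ∈ es G S
        · exact Or.inl he
        · rcases w4 e h he with rfl | rfl
          · exact Or.inr ⟨0, by norm_num, rfl⟩
          · exact Or.inr ⟨2, by norm_num, rfl⟩
    · rintro (h | ⟨x, hx, rfl⟩)
      · exact Or.inl (Or.inl h)
      · split_ifs
        · exact Or.inr ((mem_inc G).2 ⟨hg, hgw⟩)
        · exact Or.inl (Or.inr v1)
        · exact Or.inr w1
  · intro x hx hxS
    rcases Finset.mem_insert.1 hx with rfl | hx
    · refine ⟨(b, 4, 6), by simp, ?_⟩
      intro e he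
      by_cases heS : e ∈ es G S
      · refine ⟨b, by omega, Or.inl rfl, ?_⟩
        rw [if_pos hb]
        exact (hwb e he heS).symm
      · rcases w4 e he heS with rfl | rfl
        · exact ⟨4, by omega, Or.inr (Or.inl rfl), rfl⟩
        · exact ⟨6, by omega, Or.inr (Or.inr rfl), rfl⟩
    · rcases Finset.mem_insert.1 hx with rfl | hx
      · refine ⟨(a, 4, 5), by simp, ?_⟩
        intro e he
        by_cases heS : e ∈ es G S
        · refine ⟨a, by omega, Or.inl rfl, ?_⟩
          rw [if_pos ha]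
          exact (hva e he heS).symm
        · rcases v4 e he heS with rfl | rfl
          · exact ⟨4, by omega, Or.inr (Or.inl rfl), rfl⟩
          · exact ⟨5, by omega, Or.inr (Or.inr rfl), rfl⟩
      · exact absurd hx hxS
  · intro e
    have hwv : w ∉ insert v S := by
      rw [Finset.mem_insert]
      push Not
      exact ⟨hvw.symm, hw⟩
    rw [bd_insert hwv, bd_insert hv]
    constructor
    · rintro (⟨⟨h, h'⟩ | ⟨h, h'⟩, h''⟩ | ⟨h, h'⟩)
      · obtain ⟨i, hi, rfl⟩ := (t2 e).1 h
        refine ⟨i, by omega, ?_, by rw [if_pos hi]⟩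
        simp only [List.mem_cons, List.not_mem_nil, or_false, not_or]
        refine ⟨?_, ?_, by omega⟩
        · rintro rfl
          exact h' hta
        · rintro rfl
          exact h'' htb
      · rcases v4 e h h' with rfl | rfl
        · exact absurd hgw h''
        · refine ⟨5, by omega, ?_, rfl⟩
          simp only [List.mem_cons, List.not_mem_nil, or_false, not_or]
          omega
      · have h1 : e ∉ es G S ∧ e ∉ inc G v := by
          rw [es_insert, Finset.mem_union, not_or] at h'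
          exact h'
        rcases w4 e h h1.1 with rfl | rfl
        · exact absurd ((mem_inc G).2 ⟨hg, hgv⟩) h1.2
        · refine ⟨6, by omega, ?_, rfl⟩
          simp only [List.mem_cons, List.not_mem_nil, or_false, not_or]
          omega
    · rintro ⟨i, hi, hi', hi''⟩
      simp only [List.mem_cons, List.not_mem_nil, or_false, not_or] at hi'
      rcases lt_or_ge i 4 with hi4 | hi4
      · rw [if_pos hi4] at hi''
        subst hi''
        have hbd := (t2 (t i)).2 ⟨i, hi4, rfl⟩
        have hes := bd_subset_es S hbd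
        have hed := ((mem_bd G).1 hbd).1
        refine Or.inl ⟨Or.inl ⟨hbd, ?_⟩, ?_⟩
        · intro h
          exact hi'.1 (t1 i hi4 a ha (hva _ ((mem_inc G).2 ⟨hed, h⟩) hes))
        · intro h
          exact hi'.2.1 (t1 i hi4 b hb (hwb _ ((mem_inc G).2 ⟨hed, h⟩) hes))
      · rw [if_neg (by omega)] at hi''
        have : i = 5 ∨ i = 6 := by omega
        rcases this with rfl | rfl
        · have hi2 : n1 = e := hi''
          subst hi2
          refine Or.inl ⟨Or.inr ⟨v1, v2⟩, ?_⟩
          intro h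
          exact v3 (hboth n1 v1 ((mem_inc G).2 ⟨((mem_inc G).1 v1).1, h⟩))
        · have hi2 : n2 = e := hi''
          subst hi2
          refine Or.inr ⟨w1, ?_⟩
          rw [es_insert, Finset.mem_union, not_or]
          refine ⟨w2, ?_⟩
          intro h
          exact w3 (hboth n2 h w1)

theorem double (hc : Cert NN hd grps sts) (hG : G.IsRegularOfDegree 3) {S : Finset V} {v w : V}
    (hv : v ∉ S) (hw : w ∉ S) (hvw : v ≠ w) {k : ℕ} (hk : k < NN) (hp : (hd k).1 = 4)
    (h : Has hd sts G S k) (nv : nb G S v = 1) (nw : nb G S w = 1) {g : Sym2 V}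
    (hg : g ∈ G.edgeFinset) (hgv : v ∈ g) (hgw : w ∈ g) :
    ∃ k' < NN, Has hd sts G (insert w (insert v S)) k' := by
  obtain ⟨t, t1, t2, t3⟩ := h
  rw [hp] at t1 t2
  have hex : ∀ x : V, x ∉ S → nb G S x = 1 → ∃ a < 4, x ∈ t a := by
    intro x hx h1
    have h2 : (inc G x ∩ es G S).Nonempty := by
      rw [← Finset.card_pos]
      unfold nb at h1
      omega
    obtain ⟨e, he⟩ := h2
    rw [Finset.mem_inter] at he
    obtain ⟨i, hi, hi'⟩ := (t2 e).1 (mem_bd_of hx he.1 he.2)
    exact ⟨i, hi, by rw [hi']; exact ((mem_inc G).1 he.1).2⟩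
  obtain ⟨a, ha, ha'⟩ := hex v hv nv
  obtain ⟨b, hb, hb'⟩ := hex w hw nw
  rcases lt_trichotomy a b with hab | hab | hab
  · exact double_aux hc hG hv hw hvw hk hp t1 t2 t3 nv nw hg hgv hgw ha hb hab ha' hb'
  · subst hab
    exfalso
    have h1 := (t2 (t a)).2 ⟨a, ha, rfl⟩
    obtain ⟨h2, ⟨x, hx, hx'⟩, -⟩ := (mem_bd G).1 h1
    rcases ends h2 ha' hb' hvw hx' with h | h
    · exact hv (h ▸ hx)
    · exact hw (h ▸ hx)
  · have := double_aux hc hG hw hv hvw.symm hk hp t1 t2 t3 nw nv hg hgw hgv hb ha hab hb' ha'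
    rwa [Finset.insert_comm] at this

/-- after a set with five boundary edges there is a vertex with two neighbours in the set -/
theorem two_nb (hG : G.IsRegularOfDegree 3) {σ : V → ℕ} (hσ : Function.Injective σ) {S : Finset V}
    (h : Good G σ S) (h5 : (bd G S).card = 5) : ∃ w, w ∉ S ∧ 2 ≤ nb G S w := by
  by_contra hcon
  push Not at hcon
  have hne : S ≠ Finset.univ := by
    rintro rfl
    rw [bd_univ] at h5
    simp at h5
  obtain ⟨x, hx, hx'⟩ := h.next hσ hne
  have h1 := hcon x hx
  have h2 := card_bd_insert hG hx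
  have h3 := hx'.card
  omega

theorem card_bd_of_has {S : Finset V} {k : ℕ} (h : Has hd sts G S k) :
    (bd G S).card = (hd k).1 := by
  obtain ⟨t, t1, t2, -⟩ := h
  have h1 : bd G S = (Finset.range (hd k).1).image t := by
    ext e
    rw [t2, Finset.mem_image]
    simp only [Finset.mem_range]
  rw [h1, Finset.card_image_of_injOn, Finset.card_range]
  intro i hi j hj hij
  exact t1 i (by simpa using hi) j (by simpa using hj) hij

theorem main_ind (hc : Cert NN hd grps sts) (hG : G.IsRegularOfDegree 3) {σ : V → ℕ}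
    (hσ : Function.Injective σ) : ∀ N : ℕ, ∀ S : Finset V, (Finset.univ \ S).card = N →
    Good G σ S → (∃ k < NN, Has hd sts G S k) → ∃ k < NN, Has hd sts G Finset.univ k := by
  intro N
  induction N using Nat.strong_induction_on with
  | _ N ih =>
    intro S hS hgood ⟨k, hk, hhas⟩
    by_cases hne : S = Finset.univ
    · subst hne
      exact ⟨k, hk, hhas⟩
    have hcardlt : ∀ v, v ∉ S → (Finset.univ \ insert v S).card < (Finset.univ \ S).card := by
      intro v hv
      apply Finset.card_lt_card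
      rw [Finset.ssubset_iff_of_subset (Finset.sdiff_subset_sdiff (le_refl _) (Finset.subset_insert _ _))]
      exact ⟨v, by simpa using hv, by simp⟩
    by_cases h2 : ∃ v, v ∉ S ∧ 2 ≤ nb G S v
    · obtain ⟨v, hv, hv2⟩ := h2
      exact ih _ (by rw [← hS]; exact hcardlt v hv) _ rfl (hgood.absorb hG hv2)
        (attach hc hG hv hk hhas (Or.inr (Or.inr hv2)))
    push Not at h2
    obtain ⟨v, hv, hvgood⟩ := hgood.next hσ hne
    have hcb := card_bd_insert hG hv
    have hcS := card_bd_of_has hhas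
    have hle := hvgood.card
    have hnv := h2 v hv
    have hp4 : (hd k).1 ≤ 4 := hc.le4 hk
    by_cases heasy : (nb G S v = 0 ∧ (hd k).1 ≤ 1) ∨ (nb G S v = 1 ∧ (hd k).1 ≤ 3)
    · refine ih _ (by rw [← hS]; exact hcardlt v hv) _ rfl hvgood (attach hc hG hv hk hhas ?_)
      rcases heasy with h | h
      · exact Or.inl h
      · exact Or.inr (Or.inl h)
    · -- the set `insert v S` has five boundary edges
      have h5 : (bd G (insert v S)).card = 5 := by omega
      obtain ⟨w, hw, hw2⟩ := two_nb hG hσ hvgood h5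
      rw [Finset.mem_insert, not_or] at hw
      have hww := h2 w hw.2
      have hnbw : nb G (insert v S) w = nb G S w + ((inc G w ∩ inc G v) \ es G S).card := by
        unfold nb
        rw [es_insert]
        have h1 : inc G w ∩ (es G S ∪ inc G v) =
            (inc G w ∩ es G S) ∪ ((inc G w ∩ inc G v) \ es G S) := by
          ext e
          simp only [Finset.mem_inter, Finset.mem_union, Finset.mem_sdiff]
          tauto
        rw [h1, Finset.card_union_of_disjoint]
        rw [Finset.disjoint_left]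
        intro e he he'
        rw [Finset.mem_inter] at he
        rw [Finset.mem_sdiff] at he'
        exact he'.2 he.2
      have hsub : ((inc G w ∩ inc G v) \ es G S).card ≤ 1 := by
        rw [Finset.card_le_one]
        intro e he e' he'
        rw [Finset.mem_sdiff, Finset.mem_inter, mem_inc, mem_inc] at he he'
        have h1 := (Sym2.mem_and_mem_iff hw.1).1 ⟨he.1.1.2, he.1.2.2⟩
        have h3 := (Sym2.mem_and_mem_iff hw.1).1 ⟨he'.1.1.2, he'.1.2.2⟩
        rw [h1, h3]
      have hw1 : nb G S w = 1 := by omega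
      have hpos : ((inc G w ∩ inc G v) \ es G S).Nonempty := by
        rw [← Finset.card_pos]
        omega
      obtain ⟨g, hg⟩ := hpos
      rw [Finset.mem_sdiff, Finset.mem_inter, mem_inc, mem_inc] at hg
      have hlt : (Finset.univ \ insert w (insert v S)).card < N := by
        rw [← hS]
        refine lt_of_le_of_lt (Finset.card_le_card ?_) (hcardlt v hv)
        exact Finset.sdiff_subset_sdiff (le_refl _) (Finset.subset_insert _ _)
      refine ih _ hlt _ rfl (hvgood.absorb hG hw2) ?_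
      rcases Nat.lt_or_ge (nb G S v) 1 with hv0 | hv1
      · -- `v` has no neighbour in `S`: first `w`, then `v`
        have hp2 : (hd k).1 = 2 := by omega
        obtain ⟨k1, hk1, hhas1⟩ := attach hc hG hw.2 hk hhas (Or.inr (Or.inl ⟨hw1, by omega⟩))
        have hc1 := card_bd_of_has hhas1
        have hc2 := card_bd_insert hG hw.2
        have hvw : v ∉ insert w S := by
          rw [Finset.mem_insert, not_or]
          exact ⟨fun h => hw.1 h.symm, hv⟩
        have hnb1 : nb G (insert w S) v = 1 := by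
          have h1 := card_bd_insert hG hvw
          have h2' : insert v (insert w S) = insert w (insert v S) := Finset.insert_comm _ _ _
          have h3' := card_bd_insert hG (S := insert v S) (v := w) (by
            rw [Finset.mem_insert, not_or]; exact hw)
          rw [h2'] at h1
          omega
        have := attach hc hG hvw hk1 hhas1 (Or.inr (Or.inl ⟨hnb1, by omega⟩))
        rwa [Finset.insert_comm] at this
      · have hp4' : (hd k).1 = 4 := by omega
        exact double hc hG hv hw.2 (fun h => hw.1 h.symm) hk hp4' hhas (by omega) hw1 hg.1.1.1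
          hg.1.2.2 hg.1.1.2

/-- the empty set -/
theorem has_empty [Nonempty V] (hc : Cert NN hd grps sts) : Has hd sts G ∅ 0 := by
  obtain ⟨x⟩ := (inferInstance : Nonempty V)
  refine ⟨fun _ => s(x, x), ?_, ?_, ?_⟩
  · rw [hc.zero.2]
    intro i hi
    exact absurd hi (Nat.not_lt_zero _)
  · intro e
    rw [bd_empty, hc.zero.2]
    simp
  · rw [es_empty, hc.zero.2]
    intro a _
    exact Lab.empty _ _

/-- a labelling of the whole graph -/
theorem exists_lab (hc : Cert NN hd grps sts) (hG : G.IsRegularOfDegree 3) {σ : V → ℕ}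
    (hσ : Function.Injective σ) [Nonempty V]
    (hcut : ∀ j, (bd G (Finset.univ.filter (fun v => σ v < j))).card ≤ 5) :
    ∃ (t : ℕ → Sym2 V) (s : ℕ → ℕ), Lab (es G Finset.univ) (Finset.univ : Finset V) 0 t s := by
  have hgood : Good G σ ∅ := by
    intro j
    rw [Finset.empty_union]
    exact hcut j
  obtain ⟨k, hk, t, t1, t2, t3⟩ := main_ind hc hG hσ _ ∅ rfl hgood ⟨0, hc.zero.1, has_empty hc⟩
  obtain ⟨bl, hrow⟩ := hc.row k hk
  obtain ⟨-, hpos, -⟩ := rowOK_proj hrow
  have hp : (hd k).1 = 0 := by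
    by_contra hne
    have h1 := (t2 (t 0)).2 ⟨0, Nat.pos_of_ne_zero hne, rfl⟩
    rw [bd_univ] at h1
    simp at h1
  obtain ⟨a, ha⟩ : ∃ a, (hd k).2.testBit a = true := by
    by_contra hcon
    push Not at hcon
    have : (hd k).2 = 0 := Nat.zero_of_testBit_eq_false (fun i => by simpa using hcon i)
    omega
  have h2 := t3 a ha
  rw [hp] at h2
  exact ⟨t, _, h2⟩

/-- from a labelling to a colouring with small components -/
theorem colouring_of_lab {t : ℕ → Sym2 V} {s : ℕ → ℕ}
    (h : Lab (es G Finset.univ) (Finset.univ : Finset V) 0 t s) :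
    ∃ c : Sym2 V → Bool, ∀ (b : Bool) (v : V),
      {e : Sym2 V |
        e ∈ (SimpleGraph.fromEdgeSet {e : Sym2 V | e ∈ G.edgeSet ∧ c e = b}).edgeSet ∧
        ∀ w ∈ e, (SimpleGraph.fromEdgeSet {e : Sym2 V | e ∈ G.edgeSet ∧ c e = b}).Reachable v w}.ncard
          ≤ 4 := by
  obtain ⟨Λ, f, c, h1, h2, h3, -, -⟩ := h
  refine ⟨fun e => decide (c e = 1), ?_⟩
  intro b v
  set H := SimpleGraph.fromEdgeSet {e : Sym2 V | e ∈ G.edgeSet ∧ (fun e => decide (c e = 1)) e = b} with hH
  have hes : ∀ e, e ∈ H.edgeSet → e ∈ es G Finset.univ ∧ decide (c e = 1) = b := by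
    intro e he
    rw [hH, SimpleGraph.edgeSet_fromEdgeSet] at he
    obtain ⟨⟨h4, h5⟩, -⟩ := he
    refine ⟨?_, h5⟩
    rw [mem_es, SimpleGraph.mem_edgeFinset]
    refine ⟨h4, ?_⟩
    induction e with
    | h x y => exact ⟨x, Finset.mem_univ _, by simp⟩
  have hcc : ∀ e e', e ∈ H.edgeSet → e' ∈ H.edgeSet → c e = c e' := by
    intro e e' he he'
    have a1 := hes e he
    have a2 := hes e' he'
    have b1 := (h3 e a1.1).1
    have b2 := (h3 e' a2.1).1
    have h6 : decide (c e = 1) = decide (c e' = 1) := a1.2.trans a2.2.symm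
    rw [decide_eq_decide] at h6
    omega
  have hadj : ∀ (x : V) (e e' : Sym2 V), e ∈ H.edgeSet → e' ∈ H.edgeSet → x ∈ e → x ∈ e' →
      f e = f e' := fun x e e' he he' hx hx' =>
    h1 x (Finset.mem_univ _) e (hes e he).1 e' (hes e' he').1 hx hx' (hcc e e' he he')
  have hwalk : ∀ {x y : V} (p : H.Walk x y) (e e' : Sym2 V), e ∈ H.edgeSet → e' ∈ H.edgeSet →
      x ∈ e → y ∈ e' → f e = f e' := by
    intro x y p
    induction p with
    | nil => intro e e' he he' hx hy; exact hadj _ e e' he he' hx hy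
    | @cons x z y hxz p ih =>
      intro e e' he he' hx hy
      have h4 : s(x, z) ∈ H.edgeSet := hxz
      rw [hadj x e s(x, z) he h4 hx (by simp)]
      exact ih s(x, z) e' h4 he' (by simp) hy
  rcases Set.eq_empty_or_nonempty {e : Sym2 V | e ∈ H.edgeSet ∧ ∀ w ∈ e, H.Reachable v w} with h0 | h0
  · rw [h0]
    simp
  · obtain ⟨e0, he0, hr0⟩ := h0
    refine le_trans (Set.ncard_le_ncard ?_ (finite_cls (es G Finset.univ) _)) (h3 e0 (hes e0 he0).1).2
    rintro e ⟨he, hr⟩
    refine ⟨(hes e he).1, ?_⟩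
    obtain ⟨x, hx⟩ : ∃ x, x ∈ e := by
      induction e with
      | h x y => exact ⟨x, by simp⟩
    obtain ⟨y, hy⟩ : ∃ y, y ∈ e0 := by
      induction e0 with
      | h x y => exact ⟨x, by simp⟩
    obtain ⟨p⟩ := (hr x hx).symm.trans (hr0 y hy)
    exact hwalk p e e0 he he0 hx hy

end Pool.Agent.JWW
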