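import Pool.Agent.JWW.T00
import Pool.Agent.JWW.T01
import Pool.Agent.JWW.T02
import Pool.Agent.JWW.T03
import Pool.Agent.JWW.T04
import Pool.Agent.JWW.Main

/-!
# The certificate
-/

set_option autoImplicit false

namespace Pool.Agent.JWW

theorem cert : Cert NN hd grps sts := by
  refine ⟨grps_ok, ?_, by decide +kernel, by decide +kernel⟩
  intro k hk
  have hk' : k < 670 := hk
  rcases lt_or_ge k 135 with h | h
  · exact rows00 k (by omega) h
  rcases lt_or_ge k 270 with h | h
  · exact rows01 k (by omega) h
  rcases lt_or_ge k 405 with h | h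
  · exact rows02 k (by omega) h
  rcases lt_or_ge k 540 with h | h
  · exact rows03 k (by omega) h
  exact rows04 k h hk'

end Pool.Agent.JWW
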