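import Pool.Agent.JWW.Check

/-!
# Soundness of the blocks
-/

set_option autoImplicit false

namespace Pool.Agent.JWW

variable {V : Type}

theorem Lab.add_many {F : Finset (Sym2 V)} [DecidableEq V] {C : Finset V} {p : ℕ} {t : ℕ → Sym2 V}
    {s : ℕ → ℕ} (h : Lab F C p t s) (m : ℕ) (hF : ∀ x < m, t (p + x) ∉ F)
    (hC : ∀ x < m, ∀ v ∈ C, v ∉ t (p + x)) (hi : ∀ x < m, ∀ y < x, t (p + y) ≠ t (p + x))
    (hs : ∀ x < m, ∀ i < p + x, s i ≠ s (p + x)) (hl : ∀ x < m, 1 ≤ ld (s (p + x))) :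
    Lab (F ∪ (Finset.range m).image (fun x => t (p + x))) C (p + m) t s := by
  induction m with
  | zero => simpa using h
  | succ m ih =>
    have h1 := ih (fun x hx => hF x (by omega)) (fun x hx => hC x (by omega))
      (fun x hx => hi x (by omega)) (fun x hx => hs x (by omega)) (fun x hx => hl x (by omega))
    have h2 := h1.add (n := p + m) (by
      rw [Finset.mem_union, Finset.mem_image]
      rintro (h | ⟨y, hy, hy'⟩)
      · exact hF m (by omega) h
      · exact hi m (by omega) y (by simpa using hy) hy') (hC m (by omega)) (hs m (by omega))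
      (hl m (by omega))
    have h3 : F ∪ (Finset.range (m + 1)).image (fun x => t (p + x)) =
        insert (t (p + m)) (F ∪ (Finset.range m).image (fun x => t (p + x))) := by
      rw [Finset.range_add_one, Finset.image_insert, Finset.union_insert]
    rw [h3]
    exact h2

theorem ld_new (b : ℕ) (i : ℕ) (x : ℕ) (hb : b = 24) (hi : i < 3) (hx : x = b + 2 * i ∨ x = b + 2 * i + 1) :
    1 ≤ ld x ∧ 8 ≤ x % 16 := by
  unfold ld
  show 1 ≤ x / 16 ∧ _
  omega

/-- the source labelling with the new edges -/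
theorem src_lab {F : Finset (Sym2 V)} [DecidableEq V] {C : Finset V} {p m A h : ℕ}
    {t : ℕ → Sym2 V} (hm : m ≤ 3)
    (hL : Lab F C p t (get (digs p A)))
    (hF : ∀ x < m, t (p + x) ∉ F)
    (hC : ∀ x < m, ∀ v ∈ C, v ∉ t (p + x)) (hi : ∀ x < m, ∀ y < x, t (p + y) ≠ t (p + x))
    (h2 : allL (fun a => Nat.blt (Nat.mod a 16) 8) (digs p A) = true) :
    Lab (F ∪ (Finset.range m).image (fun x => t (p + x))) C (p + m) t (get (src p m A h)) ∧
      (src p m A h).length = p + m := by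
  set D := digs p A with hD
  have hDl : D.length = p := length_digs _ _
  have hD8 : ∀ a ∈ D, a % 16 < 8 := by
    intro a ha
    have := Nat.le_of_ble_eq_true (allL_eq h2 a ha)
    exact this
  -- the first part
  have hA : ∃ D' : List ℕ, D'.length = p ∧ Lab F C p t (get D') ∧ (∀ a ∈ D', a % 16 < 8) ∧
      src p m A h = app D' (newc m 24 (Nat.shiftRight h 1)) := by
    cases hb : Nat.beq (Nat.mod h 2) 1
    · refine ⟨D, hDl, hL, hD8, ?_⟩
      unfold src
      rw [hb]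
      rfl
    · refine ⟨mapL sw D, by rw [length_mapL, hDl], ?_, ?_, ?_⟩
      · refine hL.swap.congr (fun _ _ => rfl) ?_
        intro j hj
        rw [get_mapL sw D j (by omega)]
      · intro a ha
        rw [mapL_eq, List.mem_map] at ha
        obtain ⟨b, hb, rfl⟩ := ha
        have := hD8 b hb
        rw [sw_eq]
        split_ifs <;> omega
      · unfold src
        rw [hb]
        rfl
  obtain ⟨D', hl', hLab, h8, hsrc⟩ := hA
  have hgl : ∀ j < p, get (src p m A h) j = get D' j := by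
    intro j hj
    rw [hsrc, get_app_left _ _ _ (by omega)]
  have hgr : ∀ x < m, get (src p m A h) (p + x) = 24 + 2 * x ∨
      get (src p m A h) (p + x) = 24 + 2 * x + 1 := by
    intro x hx
    rw [hsrc]
    have : p + x = D'.length + x := by omega
    rw [this, get_app_right]
    exact get_newc m 24 _ x hx
  refine ⟨?_, ?_⟩
  · refine Lab.add_many (hLab.congr (fun _ _ => rfl) hgl) m hF hC hi ?_ ?_
    · intro x hx j hj
      rcases lt_or_ge j p with hjp | hjp
      · rw [hgl j hjp]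
        have a := h8 _ (get_mem D' j (by omega))
        have b := (ld_new 24 x _ rfl (by omega) (hgr x hx)).2
        intro h
        rw [h] at a
        omega
      · obtain ⟨y, rfl⟩ : ∃ y, j = p + y := ⟨j - p, by omega⟩
        have a := hgr y (by omega)
        have b := hgr x hx
        omega
    · intro x hx
      exact (ld_new 24 x _ rfl (by omega) (hgr x hx)).1
  · rw [hsrc, length_app, length_newc, hl']

/-- positions -/
theorem posOK_ord {n q : ℕ} {drop pos : List ℕ} (h : posOK n q drop pos = true) (hq : q ≤ n) :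
    ∃ ord : ℕ → ℕ, (∀ y < q, ord y < n ∧ get pos (ord y) = y ∧ ord y ∉ drop) ∧
      (∀ i < n, i ∉ drop → ∃ y < q, ord y = i) := by
  obtain ⟨a, bc⟩ := bnd_eq h
  obtain ⟨b, c⟩ := bnd_eq bc
  have a' : ∀ i < n, get pos i < n := by
    intro i hi
    have := Nat.le_of_ble_eq_true (allN_eq a i hi)
    exact this
  have b' : ∀ i < n, ∀ j < i, get pos j ≠ get pos i := by
    intro i hi j hj hij
    have h1 := allN_eq (allN_eq b i hi) j hj
    have h2 := imb_eq h1 (by rw [hij]; exact Nat.beq_refl _)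
    cases h2
  have b'' : ∀ i < n, ∀ j < n, get pos i = get pos j → i = j := by
    intro i hi j hj hij
    rcases lt_trichotomy i j with h | h | h
    · exact absurd hij (b' j hj i h)
    · exact h
    · exact absurd hij.symm (b' i hi j h)
  have hsurj : ∀ y < n, ∃ i < n, get pos i = y := by
    have himg : (Finset.range n).image (get pos) = Finset.range n := by
      apply Finset.eq_of_subset_of_card_le
      · intro y hy
        obtain ⟨i, hi, rfl⟩ := Finset.mem_image.1 hy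
        exact Finset.mem_range.2 (a' i (Finset.mem_range.1 hi))
      · rw [Finset.card_image_of_injOn]
        intro i hi j hj hij
        exact b'' i (by simpa using hi) j (by simpa using hj) hij
    intro y hy
    have : y ∈ (Finset.range n).image (get pos) := by rw [himg]; simpa using hy
    obtain ⟨i, hi, hi'⟩ := Finset.mem_image.1 this
    exact ⟨i, by simpa using hi, hi'⟩
  have hc : ∀ i < n, (i ∈ drop → q ≤ get pos i) ∧ (i ∉ drop → get pos i < q) := by
    intro i hi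
    have h1 := allN_eq c i hi
    cases hm : memb i drop
    · rw [hm] at h1
      have h2 : Nat.blt (get pos i) q = true := h1
      have h3 : get pos i < q := Nat.le_of_ble_eq_true h2
      have h4 : i ∉ drop := fun h => by
        rw [← memb_eq, hm] at h
        cases h
      exact ⟨fun h => absurd h h4, fun _ => h3⟩
    · rw [hm] at h1
      have h2 : Nat.ble q (get pos i) = true := h1
      have h3 : q ≤ get pos i := Nat.le_of_ble_eq_true h2
      exact ⟨fun _ => h3, fun h => absurd (memb_eq.1 hm) h⟩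
  choose! ord hord1 hord2 using hsurj
  refine ⟨ord, ?_, ?_⟩
  · intro y hy
    refine ⟨hord1 y (by omega), hord2 y (by omega), ?_⟩
    intro hd
    have := (hc _ (hord1 y (by omega))).1 hd
    rw [hord2 y (by omega)] at this
    omega
  · intro i hi hd
    have h1 := (hc i hi).2 hd
    refine ⟨get pos i, h1, ?_⟩
    exact b'' _ (hord1 _ (a' i hi)) _ hi (hord2 _ (a' i hi))

/-- soundness of one rule -/
theorem rule_sound [DecidableEq V] {F : Finset (Sym2 V)} {C C' : Finset V}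
    {p m q A U h : ℕ} {drop pos : List ℕ} {clos : List (ℕ × ℕ × ℕ)} {t : ℕ → Sym2 V}
    (hm : m ≤ 3) (hn : pos.length = p + m)
    {ord : ℕ → ℕ} (ho1 : ∀ y < q, ord y < p + m ∧ get pos (ord y) = y ∧ ord y ∉ drop)
    (hT : Lab F C p t (get (digs p A)))
    (hchk : chk1 p m q drop.length pos clos A U h = true)
    (hF : ∀ x < m, t (p + x) ∉ F)
    (hC : ∀ x < m, ∀ v ∈ C, v ∉ t (p + x)) (hi : ∀ x < m, ∀ y < x, t (p + y) ≠ t (p + x))
    (hC' : ∀ v ∈ C', v ∉ C → ∀ e ∈ F ∪ (Finset.range m).image (fun x => t (p + x)),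
      ∀ e' ∈ F ∪ (Finset.range m).image (fun x => t (p + x)), v ∈ e → v ∈ e' →
      ∃ c ∈ clos, ∃ i < p + m, ∃ j < p + m, (i = c.1 ∨ i = c.2.1 ∨ i = c.2.2) ∧
        (j = c.1 ∨ j = c.2.1 ∨ j = c.2.2) ∧ t i = e ∧ t j = e') :
    Lab (F ∪ (Finset.range m).image (fun x => t (p + x))) C' q (fun y => t (ord y))
      (get (digs q U)) := by
  obtain ⟨c2, hc⟩ := bnd_eq hchk
  obtain ⟨c3, c4⟩ := bnd_eq hc
  obtain ⟨hL, hlen⟩ := src_lab (h := h) hm hT hF hC hi c2
  have htl : (tgt q drop.length U h pos).length = p + m := by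
    unfold tgt
    rw [length_mapL, hn]
  have hL2 := Lab.good hL hlen htl c3
  have hL3 : Lab (F ∪ (Finset.range m).image (fun x => t (p + x))) C' (p + m) t
      (get (tgt q drop.length U h pos)) := by
    refine hL2.close ?_
    intro v hv hvC e he e' he' hve hve'
    obtain ⟨c, hc, a, ha, b, hb, ha', hb', hae, hbe⟩ := hC' v hv hvC e he e' he' hve hve'
    refine ⟨a, ha, b, hb, hae, hbe, ?_⟩
    intro hp
    obtain ⟨d1, d⟩ := bnd_eq (allL_eq c4 c hc)
    obtain ⟨d2, d3⟩ := bnd_eq d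
    have e1 := fun h => cl2_eq d1 h
    have e2 := fun h => cl2_eq d2 h
    have e3 := fun h => cl2_eq d3 h
    rcases ha' with rfl | rfl | rfl <;> rcases hb' with rfl | rfl | rfl
    · rfl
    · exact e1 hp
    · exact e2 hp
    · exact (e1 hp.symm).symm
    · rfl
    · exact e3 hp
    · exact (e2 hp.symm).symm
    · exact (e3 hp.symm).symm
    · rfl
  refine (hL3.reindex ord (fun y hy => (ho1 y hy).1)).congr (fun _ _ => rfl) ?_
  intro y hy
  show _ = get (tgt q drop.length U h pos) (ord y)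
  unfold tgt
  rw [get_mapL _ _ _ (by rw [hn]; exact (ho1 y hy).1), (ho1 y hy).2.1,
    get_app_left _ _ _ (by rw [length_digs]; exact hy)]

/-! ### rows -/

/-- the transitions of a table with `p` poles: number of new edges, triples of edges which meet in
the new vertices, edges which are no poles any more -/
def tl (p : ℕ) : List (ℕ × List (ℕ × ℕ × ℕ) × List ℕ) :=
  Nat.rec [(3, [(0, 1, 2)], [])]
    (fun p' _ => Nat.rec [(3, [(1, 2, 3)], []), (2, [(0, 1, 2)], [0])]
      (fun p'' _ => Nat.rec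
        [(2, [(0, 2, 3)], [0]), (2, [(1, 2, 3)], [1]), (1, [(0, 1, 2)], [0, 1])]
        (fun p''' _ => Nat.rec
          [(2, [(0, 3, 4)], [0]), (2, [(1, 3, 4)], [1]), (2, [(2, 3, 4)], [2]),
            (1, [(0, 1, 3)], [0, 1]), (1, [(0, 2, 3)], [0, 2]), (1, [(1, 2, 3)], [1, 2]),
            (0, [(0, 1, 2)], [0, 1, 2])]
          (fun _ _ =>
            [(1, [(0, 1, 4)], [0, 1]), (1, [(0, 2, 4)], [0, 2]), (1, [(0, 3, 4)], [0, 3]),
              (1, [(1, 2, 4)], [1, 2]), (1, [(1, 3, 4)], [1, 3]), (1, [(2, 3, 4)], [2, 3]),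
              (0, [(0, 1, 2)], [0, 1, 2]), (0, [(0, 1, 3)], [0, 1, 3]), (0, [(0, 2, 3)], [0, 2, 3]),
              (0, [(1, 2, 3)], [1, 2, 3]),
              (3, [(0, 4, 5), (1, 4, 6)], [0, 1, 4]), (3, [(0, 4, 5), (2, 4, 6)], [0, 2, 4]),
              (3, [(0, 4, 5), (3, 4, 6)], [0, 3, 4]), (3, [(1, 4, 5), (2, 4, 6)], [1, 2, 4]),
              (3, [(1, 4, 5), (3, 4, 6)], [1, 3, 4]), (3, [(2, 4, 5), (3, 4, 6)], [2, 3, 4])])
          p''') p'') p') p

/-- the data of a group: number of poles, number of the transition, positions, number of new poles,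
number of targets, targets, sources -/
abbrev Grp := ℕ × ℕ × List ℕ × ℕ × ℕ × ℕ × ℕ

/-- a valid group -/
def GOK (sts : List ℕ) (g : Grp) : Prop :=
  ∃ τ : ℕ × List (ℕ × ℕ × ℕ) × List ℕ, getD' (0, [], []) (tl g.1) g.2.1 = τ ∧
    τ.1 ≤ 3 ∧ g.2.2.1.length = g.1 + τ.1 ∧ g.2.2.2.1 ≤ g.1 + τ.1 ∧
    posOK (g.1 + τ.1) g.2.2.2.1 τ.2.2 g.2.2.1 = true ∧
    ∀ i < g.2.2.2.2.1, ∀ a, (bAt g.2.2.2.2.2.2 i).testBit a = true → ∃ x,
      chk1 g.1 τ.1 g.2.2.2.1 τ.2.2.length g.2.2.1 τ.2.1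
        (Nat.shiftRight (get sts g.1) (Nat.mul 28 a))
        (Nat.shiftRight (get sts g.2.2.2.1) (Nat.mul 28 (uAt g.2.2.2.2.2.1 i))) x = true

/-- the simple part of the test of a group -/
def gst (p m q n l : ℕ) (pos drop : List ℕ) : Bool :=
  bnd (Nat.ble m 3) (bnd (Nat.beq pos.length (Nat.add p m)) (bnd (Nat.ble q (Nat.add p m))
    (bnd (posOK (Nat.add p m) q drop pos) (Nat.ble n l))))

theorem GOK_of {sts : List ℕ} {p ti q m n UU BB : ℕ} {pos drop : List ℕ} {clos : List (ℕ × ℕ × ℕ)}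
    {H : List (List ℕ)} (h1 : getD' (0, [], []) (tl p) ti = (m, clos, drop))
    (h2 : gst p m q n H.length pos drop = true)
    (h3 : grpOK p m q drop.length pos clos (get sts p) (get sts q) UU BB H 0 = true) :
    GOK sts (p, ti, pos, q, n, UU, BB) := by
  obtain ⟨a1, a⟩ := bnd_eq h2
  obtain ⟨a2, a⟩ := bnd_eq a
  obtain ⟨a3, a⟩ := bnd_eq a
  obtain ⟨a4, a5⟩ := bnd_eq a
  refine ⟨(m, clos, drop), h1, Nat.le_of_ble_eq_true a1, Nat.eq_of_beq_eq_true a2,
    Nat.le_of_ble_eq_true a3, a4, ?_⟩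
  intro i hi a ha
  have h4 : n ≤ H.length := Nat.le_of_ble_eq_true a5
  have hi' : i < n := hi
  exact grpOK_eq h3 i (Nat.zero_le i) (by omega) a ha

/-- the targets of the indices `HB` are reached -/
def loop (n UU BB T T' HB m acc : ℕ) : Bool :=
  (Nat.rec (fun acc => Nat.beq (Nat.land T' acc) T') (fun i r acc =>
    force (Nat.mod (Nat.shiftRight HB (Nat.mul 10 i)) 1024) (fun x =>
      bnd (Nat.blt x n) (bnd (Nat.blt 0 (Nat.land (bAt BB x) T))
        (force (Nat.lor acc (Nat.shiftLeft 1 (uAt UU x))) r)))) m : ℕ → Bool) acc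

theorem loop_eq {n UU BB T T' HB m acc : ℕ} (h : loop n UU BB T T' HB m acc = true) (u : ℕ)
    (hu : T'.testBit u = true) :
    acc.testBit u = true ∨ ∃ i < n, uAt UU i = u ∧ 0 < bAt BB i &&& T := by
  induction m generalizing acc with
  | zero =>
    have h1 : T' &&& acc = T' := Nat.eq_of_beq_eq_true h
    have h2 : (T' &&& acc).testBit u = true := by rw [h1]; exact hu
    rw [Nat.testBit_and, Bool.and_eq_true] at h2
    exact Or.inl h2.2
  | succ m ih =>
    have h1 : force (Nat.mod (Nat.shiftRight HB (Nat.mul 10 m)) 1024) (fun x =>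
      bnd (Nat.blt x n) (bnd (Nat.blt 0 (Nat.land (bAt BB x) T))
        (force (Nat.lor acc (Nat.shiftLeft 1 (uAt UU x))) (loop n UU BB T T' HB m)))) = true := h
    rw [force_eq] at h1
    generalize Nat.mod (Nat.shiftRight HB (Nat.mul 10 m)) 1024 = x at h1
    obtain ⟨h2, h1⟩ := bnd_eq h1
    obtain ⟨h3, h1⟩ := bnd_eq h1
    rw [force_eq] at h1
    rcases ih h1 with h4 | h4
    · have h5 : (acc ||| (1 <<< uAt UU x)).testBit u = true := h4
      rw [Nat.testBit_lor, Bool.or_eq_true, Nat.testBit_shiftLeft] at h5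
      rcases h5 with h5 | h5
      · exact Or.inl h5
      · right
        rw [Bool.and_eq_true] at h5
        obtain ⟨h6, h7⟩ := h5
        have h8 : uAt UU x ≤ u := by simpa using h6
        have h9 : u - uAt UU x = 0 := Nat.testBit_one_eq_true_iff_self_eq_zero.1 h7
        exact ⟨x, Nat.le_of_ble_eq_true h2, by omega, Nat.le_of_ble_eq_true h3⟩
    · exact Or.inr h4

/-- one block: the table `b.1` arises by the rules of the group `b.2.1` -/
def blkOK (NN : ℕ) (hd : ℕ → ℕ × ℕ) (grps : List Grp) (p T ti : ℕ) (b : ℕ × ℕ × ℕ × ℕ) : Bool :=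
  match hd b.1 with
  | (q, T') =>
    match getD' (5, 0, [], 0, 0, 0, 0) grps b.2.1 with
    | (p2, ti2, _, q2, n, UU, BB) =>
      bnd (Nat.blt b.1 NN) (bnd (Nat.beq p p2) (bnd (Nat.beq ti ti2) (bnd (Nat.beq q q2)
        (loop n UU BB T T' b.2.2.2 b.2.2.1 0))))

/-- one row -/
def rowOK (NN : ℕ) (hd : ℕ → ℕ × ℕ) (grps : List Grp) (k : ℕ) (bl : List (ℕ × ℕ × ℕ × ℕ)) : Bool :=
  match hd k with
  | (p, T) => bnd (Nat.ble p 4) (bnd (Nat.blt 0 T) (bnd (Nat.beq bl.length (tl p).length)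
      (allN (fun ti => blkOK NN hd grps p T ti (getD' (0, 0, 0, 0) bl ti)) (tl p).length)))

/-- consecutive rows -/
def rowsOK (NN : ℕ) (hd : ℕ → ℕ × ℕ) (grps : List Grp) (lo : ℕ)
    (bls : List (List (ℕ × ℕ × ℕ × ℕ))) : Bool :=
  (List.rec (fun _ => true) (fun b _ r lo => bnd (rowOK NN hd grps lo b) (r (Nat.succ lo))) bls : ℕ → Bool) lo

theorem rowsOK_eq {NN : ℕ} {hd : ℕ → ℕ × ℕ} {grps : List Grp} {lo : ℕ}
    {bls : List (List (ℕ × ℕ × ℕ × ℕ))}
    (h : rowsOK NN hd grps lo bls = true) :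
    ∀ k, lo ≤ k → k < lo + bls.length → ∃ b, rowOK NN hd grps k b = true := by
  induction bls generalizing lo with
  | nil => intro k h1 h2; simp at h2; omega
  | cons b bls ih =>
    have h2 : bnd (rowOK NN hd grps lo b) (rowsOK NN hd grps (Nat.succ lo) bls) = true := h
    obtain ⟨h3, h4⟩ := bnd_eq h2
    intro k hk1 hk2
    rcases eq_or_lt_of_le hk1 with rfl | hk
    · exact ⟨b, h3⟩
    · exact ih h4 k hk (by simp only [List.length_cons] at hk2; omega)

theorem blkOK_proj {NN : ℕ} {hd : ℕ → ℕ × ℕ} {grps : List Grp} {p T ti : ℕ} {b : ℕ × ℕ × ℕ × ℕ}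
    (h : blkOK NN hd grps p T ti b = true) (hp : p ≤ 4) :
    ∃ g ∈ grps, b.1 < NN ∧ p = g.1 ∧ ti = g.2.1 ∧ (hd b.1).1 = g.2.2.2.1 ∧
      loop g.2.2.2.2.1 g.2.2.2.2.2.1 g.2.2.2.2.2.2 T (hd b.1).2 b.2.2.2 b.2.2.1 0 = true := by
  unfold blkOK at h
  have hmem := getD'_mem (5, 0, [], 0, 0, 0, 0) grps b.2.1
  revert hmem h
  rcases hd b.1 with ⟨q, T'⟩
  rcases getD' (5, 0, [], 0, 0, 0, 0) grps b.2.1 with ⟨p2, ti2, pos, q2, n, UU, BB⟩
  intro h2 hmem
  obtain ⟨a1, h2⟩ := bnd_eq h2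
  obtain ⟨a2, h2⟩ := bnd_eq h2
  obtain ⟨a3, h2⟩ := bnd_eq h2
  obtain ⟨a4, a5⟩ := bnd_eq h2
  have a2' : p = p2 := Nat.eq_of_beq_eq_true a2
  refine ⟨(p2, ti2, pos, q2, n, UU, BB), ?_, Nat.le_of_ble_eq_true a1, a2', Nat.eq_of_beq_eq_true a3,
    Nat.eq_of_beq_eq_true a4, a5⟩
  rcases hmem with h | h
  · have : p2 = 5 := congrArg Prod.fst h
    omega
  · exact h

theorem rowOK_proj {NN : ℕ} {hd : ℕ → ℕ × ℕ} {grps : List Grp} {k : ℕ}
    {bl : List (ℕ × ℕ × ℕ × ℕ)} (h : rowOK NN hd grps k bl = true) :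
    (hd k).1 ≤ 4 ∧ 0 < (hd k).2 ∧ ∀ ti < (tl (hd k).1).length,
      blkOK NN hd grps (hd k).1 (hd k).2 ti (getD' (0, 0, 0, 0) bl ti) = true := by
  unfold rowOK at h
  revert h
  rcases hd k with ⟨p, T⟩
  intro h
  obtain ⟨h1, h⟩ := bnd_eq h
  obtain ⟨h2, h⟩ := bnd_eq h
  obtain ⟨-, h⟩ := bnd_eq h
  exact ⟨Nat.le_of_ble_eq_true h1, Nat.le_of_ble_eq_true h2, allN_eq h⟩

/-- the set `S` of states is realized -/
def Real (sts : List ℕ) (F : Finset (Sym2 V)) (C : Finset V) (t : ℕ → Sym2 V) (h : ℕ × ℕ) : Prop :=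
  ∀ a, h.2.testBit a = true →
    Lab F C h.1 t (get (digs h.1 (Nat.shiftRight (get sts h.1) (Nat.mul 28 a))))

theorem trans_sound [DecidableEq V] {NN : ℕ} {hd : ℕ → ℕ × ℕ} {grps : List Grp} {sts : List ℕ}
    (hg : ∀ g ∈ grps, GOK sts g) {k : ℕ} {bl : List (ℕ × ℕ × ℕ × ℕ)}
    (hrow : rowOK NN hd grps k bl = true)
    {F : Finset (Sym2 V)} {C C' : Finset V} {t : ℕ → Sym2 V} {ti m p : ℕ} {drop : List ℕ}
    {clos : List (ℕ × ℕ × ℕ)} (hp : (hd k).1 = p) (hti : ti < (tl p).length)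
    (hτ : getD' (0, [], []) (tl p) ti = (m, clos, drop))
    (hT : Real sts F C t (hd k))
    (hF : ∀ x < m, t (p + x) ∉ F)
    (hC : ∀ x < m, ∀ v ∈ C, v ∉ t (p + x))
    (hi : ∀ x < m, ∀ y < x, t (p + y) ≠ t (p + x))
    (hC' : ∀ v ∈ C', v ∉ C → ∀ e ∈ F ∪ (Finset.range m).image (fun x => t (p + x)),
      ∀ e' ∈ F ∪ (Finset.range m).image (fun x => t (p + x)), v ∈ e → v ∈ e' →
      ∃ c ∈ clos, ∃ i < p + m, ∃ j < p + m, (i = c.1 ∨ i = c.2.1 ∨ i = c.2.2) ∧
        (j = c.1 ∨ j = c.2.1 ∨ j = c.2.2) ∧ t i = e ∧ t j = e') :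
    ∃ k' < NN, ∃ ord : ℕ → ℕ, (∀ y < (hd k').1, ord y < p + m ∧ ord y ∉ drop) ∧
      (∀ i < p + m, i ∉ drop → ∃ y < (hd k').1, ord y = i) ∧
      (∀ y < (hd k').1, ∀ z < (hd k').1, ord y = ord z → y = z) ∧
      Real sts (F ∪ (Finset.range m).image (fun x => t (p + x))) C' (fun y => t (ord y))
        (hd k') := by
  subst hp
  obtain ⟨hp4, -, h2⟩ := rowOK_proj hrow
  obtain ⟨g, hgm, a1, a2, a3, a4, a6⟩ := blkOK_proj (h2 ti hti) hp4
  generalize getD' (0, 0, 0, 0) bl ti = b at *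
  obtain ⟨τ, b1, b2, b3, b4, b5, b7⟩ := hg g hgm
  rw [← a2, ← a3, hτ] at b1
  subst b1
  rw [← a2] at b3 b4 b5
  rw [← a2] at b7
  rw [← a4] at b4 b5 b7
  obtain ⟨ord, ho1, ho2⟩ := posOK_ord b5 b4
  refine ⟨b.1, a1, ord, fun y hy => ⟨(ho1 y hy).1, (ho1 y hy).2.2⟩, ho2, ?_, ?_⟩
  · intro y hy z hz hyz
    rw [← (ho1 y hy).2.1, ← (ho1 z hz).2.1, hyz]
  · intro u hu
    rcases loop_eq a6 u hu with h0 | ⟨i, hi', hiu, h6⟩
    · simp at h0
    · obtain ⟨a, ha⟩ : ∃ a, (bAt g.2.2.2.2.2.2 i &&& (hd k).2).testBit a = true := by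
        by_contra hcon
        push Not at hcon
        have : bAt g.2.2.2.2.2.2 i &&& (hd k).2 = 0 :=
          Nat.zero_of_testBit_eq_false (fun i => by simpa using hcon i)
        omega
      rw [Nat.testBit_and, Bool.and_eq_true] at ha
      obtain ⟨x, hx⟩ := b7 i hi' a ha.1
      have h7 := rule_sound b2 b3 ho1 (hT a ha.2) hx hF hC hi hC'
      rw [hiu] at h7
      exact h7

end Pool.Agent.JWW
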