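import Pool.Agent.JWW.Lab

/-!
# Boolean functions for the kernel
-/

set_option autoImplicit false

namespace Pool.Agent.JWW

/-- conjunction -/
def bnd (x y : Bool) : Bool := Bool.rec false y x

theorem bnd_eq {x y : Bool} (h : bnd x y = true) : x = true ∧ y = true := by
  cases x
  · cases h
  · exact ⟨rfl, h⟩

/-- `x → y` -/
def imb (x y : Bool) : Bool := Bool.rec true y x

theorem imb_eq {x y : Bool} (h : imb x y = true) (hx : x = true) : y = true := by
  subst hx
  exact h

/-- case distinction -/
def ite' {α : Type} (b : Bool) (x y : α) : α := Bool.rec y x b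

/-- `p 0 && p 1 && … && p (n - 1)` -/
def allN (p : ℕ → Bool) (n : ℕ) : Bool := Nat.rec true (fun i r => bnd (p i) r) n

theorem allN_eq {p : ℕ → Bool} {n : ℕ} (h : allN p n = true) : ∀ i < n, p i = true := by
  induction n with
  | zero => intro i hi; omega
  | succ n ih =>
    have h2 : bnd (p n) (allN p n) = true := h
    obtain ⟨a, b⟩ := bnd_eq h2
    intro i hi
    rcases Nat.lt_succ_iff_lt_or_eq.1 hi with hi | hi
    · exact ih b i hi
    · exact hi ▸ a

/-- all elements of a list satisfy `p` -/
def allL {α : Type} (p : α → Bool) (l : List α) : Bool := List.rec true (fun x _ r => bnd (p x) r) l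

theorem allL_eq {α : Type} {p : α → Bool} {l : List α} (h : allL p l = true) :
    ∀ x ∈ l, p x = true := by
  induction l with
  | nil => intro x hx; cases hx
  | cons y l ih =>
    have h2 : bnd (p y) (allL p l) = true := h
    obtain ⟨a, b⟩ := bnd_eq h2
    intro x hx
    rcases List.mem_cons.1 hx with rfl | hx
    · exact a
    · exact ih b x hx

/-- membership -/
def memb (a : ℕ) (l : List ℕ) : Bool := List.rec false (fun x _ r => ite' (Nat.beq a x) true r) l

theorem memb_eq {a : ℕ} {l : List ℕ} : memb a l = true ↔ a ∈ l := by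
  induction l with
  | nil => exact ⟨fun h => (by cases h), fun h => (by cases h)⟩
  | cons x l ih =>
    have h2 : memb a (x :: l) = ite' (Nat.beq a x) true (memb a l) := rfl
    rw [h2, List.mem_cons]
    cases hb : Nat.beq a x
    · have hne : a ≠ x := Nat.ne_of_beq_eq_false hb
      show memb a l = true ↔ _
      rw [ih]
      simp [hne]
    · have he : a = x := Nat.eq_of_beq_eq_true hb
      exact ⟨fun _ => Or.inl he, fun _ => rfl⟩

/-- entry of a list -/
def get (l : List ℕ) (i : ℕ) : ℕ := (List.rec (fun _ => 0) (fun x _ r i => Nat.rec x (fun j _ => r j) i) l : ℕ → ℕ) i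

@[simp] theorem get_nil (i : ℕ) : get [] i = 0 := rfl
@[simp] theorem get_cons_zero (x : ℕ) (l : List ℕ) : get (x :: l) 0 = x := rfl
@[simp] theorem get_cons_succ (x : ℕ) (l : List ℕ) (i : ℕ) : get (x :: l) (i + 1) = get l i := rfl

/-- entry of a list -/
def getD' {α : Type} (d : α) (l : List α) (i : ℕ) : α :=
  (List.rec (fun _ => d) (fun x _ r i => Nat.rec x (fun j _ => r j) i) l : ℕ → α) i

theorem getD'_mem {α : Type} (d : α) (l : List α) (i : ℕ) : getD' d l i = d ∨ getD' d l i ∈ l := by
  induction l generalizing i with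
  | nil => exact Or.inl rfl
  | cons x l ih =>
    cases i with
    | zero => exact Or.inr (by show x ∈ x :: l; simp)
    | succ i =>
      show getD' d l i = d ∨ getD' d l i ∈ x :: l
      rcases ih i with h | h
      · exact Or.inl h
      · exact Or.inr (List.mem_cons_of_mem _ h)

/-- append -/
def app {α : Type} (l l' : List α) : List α := List.rec l' (fun x _ r => x :: r) l

theorem app_eq {α : Type} (l l' : List α) : app l l' = l ++ l' := by
  induction l with
  | nil => rfl
  | cons x l ih => show x :: app l l' = x :: (l ++ l'); rw [ih]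

/-- map -/
def mapL {α β : Type} (f : α → β) (l : List α) : List β := List.rec [] (fun x _ r => f x :: r) l

theorem mapL_eq {α β : Type} (f : α → β) (l : List α) : mapL f l = l.map f := by
  induction l with
  | nil => rfl
  | cons x l ih => show f x :: mapL f l = f x :: l.map f; rw [ih]

theorem get_app_left (l l' : List ℕ) (i : ℕ) (h : i < l.length) : get (app l l') i = get l i := by
  rw [app_eq]
  induction l generalizing i with
  | nil => simp at h
  | cons x l ih =>
    cases i with
    | zero => rfl
    | succ i =>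
      show get (l ++ l') i = get l i
      exact ih i (by simpa using h)

theorem get_app_right (l l' : List ℕ) (i : ℕ) : get (app l l') (l.length + i) = get l' i := by
  rw [app_eq]
  induction l with
  | nil => simp
  | cons x l ih =>
    have : (x :: l).length + i = (l.length + i) + 1 := by simp; omega
    rw [this]
    exact ih

theorem get_mem (l : List ℕ) (i : ℕ) (h : i < l.length) : get l i ∈ l := by
  induction l generalizing i with
  | nil => simp at h
  | cons x l ih =>
    cases i with
    | zero => simp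
    | succ i =>
      show get l i ∈ x :: l
      exact List.mem_cons_of_mem _ (ih i (by simpa using h))

theorem get_mapL (f : ℕ → ℕ) (l : List ℕ) (i : ℕ) (h : i < l.length) :
    get (mapL f l) i = f (get l i) := by
  induction l generalizing i with
  | nil => simp at h
  | cons x l ih =>
    cases i with
    | zero => rfl
    | succ i => exact ih i (by simpa using h)

theorem length_app {α : Type} (l l' : List α) : (app l l').length = l.length + l'.length := by
  rw [app_eq, List.length_append]

theorem length_mapL {α β : Type} (f : α → β) (l : List α) : (mapL f l).length = l.length := by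
  rw [mapL_eq, List.length_map]

/-- the first `n` digits in base 128 -/
def digs (n X : ℕ) : List ℕ :=
  (Nat.rec (fun _ => []) (fun _ r X => Nat.mod X 128 :: r (Nat.div X 128)) n : ℕ → List ℕ) X

theorem length_digs (n X : ℕ) : (digs n X).length = n := by
  induction n generalizing X with
  | zero => rfl
  | succ n ih =>
    show (Nat.mod X 128 :: digs n (Nat.div X 128)).length = n + 1
    rw [List.length_cons, ih]

/-- the codes of `m` new edges -/
def newc (m b cs : ℕ) : List ℕ :=
  (Nat.rec (fun _ _ => []) (fun _ r b cs => Nat.add b (Nat.mod cs 2) :: r (Nat.add b 2) (Nat.div cs 2)) m :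
    ℕ → ℕ → List ℕ) b cs

theorem newc_succ (m b cs : ℕ) : newc (m + 1) b cs = (b + cs % 2) :: newc m (b + 2) (cs / 2) := rfl

theorem length_newc (m b cs : ℕ) : (newc m b cs).length = m := by
  induction m generalizing b cs with
  | zero => rfl
  | succ m ih => rw [newc_succ, List.length_cons, ih]

theorem get_newc (m b cs i : ℕ) (h : i < m) :
    get (newc m b cs) i = b + 2 * i ∨ get (newc m b cs) i = b + 2 * i + 1 := by
  induction m generalizing b cs i with
  | zero => omega
  | succ m ih =>
    rw [newc_succ]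
    cases i with
    | zero =>
      rw [get_cons_zero]
      omega
    | succ i =>
      rw [get_cons_succ]
      have := ih (b + 2) (cs / 2) i (by omega)
      omega

/-- pairs -/
def zp (la lu : List ℕ) : List (ℕ × ℕ) :=
  (List.rec (fun _ => []) (fun a _ r us => List.rec [] (fun u us' _ => (a, u) :: r us') us) la :
    List ℕ → List (ℕ × ℕ)) lu

theorem mem_zp (la lu : List ℕ) (h : la.length = lu.length) (i : ℕ) (hi : i < la.length) :
    (get la i, get lu i) ∈ zp la lu := by
  induction la generalizing lu i with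
  | nil => simp at hi
  | cons a la ih =>
    cases lu with
    | nil => simp at h
    | cons u lu =>
      show _ ∈ (a, u) :: zp la lu
      cases i with
      | zero => simp
      | succ i =>
        rw [get_cons_succ, get_cons_succ]
        exact List.mem_cons_of_mem _ (ih lu (by simpa using h) i (by simpa using hi))

/-- the first pairs for every first entry -/
def firsts (P : List (ℕ × ℕ)) (seen : List ℕ) : List (ℕ × ℕ) :=
  (List.rec (fun _ => []) (fun x _ r seen => ite' (memb x.1 seen) (r seen) (x :: r (x.1 :: seen))) P :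
    List ℕ → List (ℕ × ℕ)) seen

theorem mem_firsts (P : List (ℕ × ℕ)) (seen : List ℕ) (x : ℕ × ℕ) (hx : x ∈ P) :
    x.1 ∈ seen ∨ ∃ u, (x.1, u) ∈ firsts P seen := by
  induction P generalizing seen with
  | nil => cases hx
  | cons y P ih =>
    have h2 : firsts (y :: P) seen =
      ite' (memb y.1 seen) (firsts P seen) (y :: firsts P (y.1 :: seen)) := rfl
    rw [h2]
    cases hm : memb y.1 seen
    · show _ ∨ ∃ u, (x.1, u) ∈ y :: firsts P (y.1 :: seen)
      rcases List.mem_cons.1 hx with rfl | hx
      · exact Or.inr ⟨x.2, by simp⟩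
      · rcases ih (y.1 :: seen) hx with h | ⟨u, hu⟩
        · rcases List.mem_cons.1 h with h | h
          · exact Or.inr ⟨y.2, by rw [h]; simp⟩
          · exact Or.inl h
        · exact Or.inr ⟨u, List.mem_cons_of_mem _ hu⟩
    · show _ ∨ ∃ u, (x.1, u) ∈ firsts P seen
      rcases List.mem_cons.1 hx with rfl | hx
      · exact Or.inl (memb_eq.1 hm)
      · exact ih seen hx

/-- sum of the loads of the old blocks which form the new block `u` -/
def sumFL (u : ℕ) (FL : List (ℕ × ℕ)) : ℕ :=
  List.rec 0 (fun y _ r => ite' (Nat.beq y.2 u) (Nat.add (ld y.1) r) r) FL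

theorem sumFL_eq (u : ℕ) (FL : List (ℕ × ℕ)) :
    sumFL u FL = ((FL.filter (fun x => x.2 = u)).map (fun x => ld x.1)).sum := by
  induction FL with
  | nil => rfl
  | cons y FL ih =>
    have h2 : sumFL u (y :: FL) = ite' (Nat.beq y.2 u) (Nat.add (ld y.1) (sumFL u FL)) (sumFL u FL) := rfl
    rw [h2]
    cases hb : Nat.beq y.2 u
    · have hne : y.2 ≠ u := Nat.ne_of_beq_eq_false hb
      show sumFL u FL = _
      rw [ih, List.filter_cons_of_neg (by simpa using hne)]
    · have he : y.2 = u := Nat.eq_of_beq_eq_true hb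
      show Nat.add (ld y.1) (sumFL u FL) = _
      rw [ih, List.filter_cons_of_pos (by simpa using he), List.map_cons, List.sum_cons]
      rfl

/-- the codes `lu` arise from the codes `la` by joining blocks of the same colour and by increasing
loads -/
def good (P FL : List (ℕ × ℕ)) : Bool :=
  bnd (allL (fun x => allL (fun y => imb (Nat.beq x.1 y.1) (Nat.beq x.2 y.2)) FL) P)
    (allL (fun x => bnd (Nat.beq (Nat.mod x.2 2) (Nat.mod x.1 2))
      (bnd (Nat.ble (sumFL x.2 FL) (ld x.2)) (Nat.ble (ld x.2) 4))) FL)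

theorem Lab.good {V : Type} {F : Finset (Sym2 V)} {C : Finset V} {n : ℕ} {t : ℕ → Sym2 V}
    {la lu : List ℕ} (h : Lab F C n t (get la)) (hla : la.length = n) (hlu : lu.length = n)
    (hg : good (zp la lu) (firsts (zp la lu) []) = true) : Lab F C n t (get lu) := by
  obtain ⟨g1, g2⟩ := bnd_eq hg
  have g1' := allL_eq g1
  have g2' := allL_eq g2
  have hmem : ∀ i < n, (get la i, get lu i) ∈ firsts (zp la lu) [] := by
    intro i hi
    have hz := mem_zp la lu (by omega) i (by omega)
    rcases mem_firsts _ [] _ hz with h | ⟨u, hu⟩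
    · cases h
    · have h1 := allL_eq (g1' _ hz) _ hu
      have h2 := imb_eq h1 (Nat.beq_refl _)
      have h3 : get lu i = u := Nat.eq_of_beq_eq_true h2
      have h4 : ((get la i, get lu i) : ℕ × ℕ).1 = get la i := rfl
      rw [h4] at hu
      rw [h3]
      exact hu
  refine h.coarsen _ hmem ?_ ?_ ?_
  · intro i hi
    obtain ⟨a, -⟩ := bnd_eq (g2' _ (hmem i hi))
    exact Nat.eq_of_beq_eq_true a
  · intro i hi j hj hij
    have hz := mem_zp la lu (by omega) i (by omega)
    have h1 := allL_eq (g1' _ hz) _ (hmem j hj)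
    have h2 : Nat.beq (get la i) (get la j) = true := by rw [hij]; exact Nat.beq_refl _
    exact Nat.eq_of_beq_eq_true (imb_eq h1 h2)
  · intro i hi
    obtain ⟨-, b⟩ := bnd_eq (g2' _ (hmem i hi))
    obtain ⟨b, c⟩ := bnd_eq b
    rw [← sumFL_eq]
    exact ⟨Nat.le_of_ble_eq_true b, Nat.le_of_ble_eq_true c⟩

/-! ### transitions -/

/-- two edges of the same colour have the same block -/
def cl2 (x y : ℕ) : Bool := imb (Nat.beq (Nat.mod x 2) (Nat.mod y 2)) (Nat.beq x y)

theorem cl2_eq {x y : ℕ} (h : cl2 x y = true) (hp : par x = par y) : x = y :=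
  Nat.eq_of_beq_eq_true (imb_eq h (by
    show Nat.beq (par x) (par y) = true
    rw [hp]
    exact Nat.beq_refl _))

/-- three edges which meet in a vertex -/
def cl3 (x y z : ℕ) : Bool := bnd (cl2 x y) (bnd (cl2 x z) (cl2 y z))

/-- the source codes of a rule: `A` codes the state, `h` the exchange of colours and the colours of
the new edges -/
def src (p m A h : ℕ) : List ℕ :=
  app (ite' (Nat.beq (Nat.mod h 2) 1) (mapL sw (digs p A)) (digs p A))
    (newc m 24 (Nat.shiftRight h 1))

/-- the target codes of a rule -/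
def tgt (q d U h : ℕ) (pos : List ℕ) : List ℕ :=
  mapL (get (app (digs q U) (digs d (Nat.shiftRight h 4)))) pos

/-- one rule -/
def chk1 (p m q d : ℕ) (pos : List ℕ) (clos : List (ℕ × ℕ × ℕ)) (A U h : ℕ) : Bool :=
  bnd (allL (fun a => Nat.blt (Nat.mod a 16) 8) (digs p A))
    (bnd (good (zp (src p m A h) (tgt q d U h pos))
        (firsts (zp (src p m A h) (tgt q d U h pos)) []))
      (allL (fun c => cl3 (get (tgt q d U h pos) c.1) (get (tgt q d U h pos) c.2.1)
        (get (tgt q d U h pos) c.2.2)) clos))

/-! ### the same function with forced evaluation -/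

/-- evaluate a number -/
def force {β : Type} (x : ℕ) (k : ℕ → β) : β := Nat.rec (k 0) (fun n _ => k (Nat.succ n)) x

theorem force_eq {β : Type} (x : ℕ) (k : ℕ → β) : force x k = k x := by
  cases x <;> rfl

/-- evaluated digits -/
def digsK {β : Type} (n X : ℕ) (k : List ℕ → β) : β :=
  (Nat.rec (fun _ k => k []) (fun _ r X k => force (Nat.mod X 128) (fun d =>
    force (Nat.div X 128) (fun X' => r X' (fun l => k (d :: l))))) n : ℕ → (List ℕ → β) → β) X k

theorem digsK_eq {β : Type} (n X : ℕ) (k : List ℕ → β) : digsK n X k = k (digs n X) := by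
  induction n generalizing X k with
  | zero => rfl
  | succ n ih =>
    show force (Nat.mod X 128) (fun d =>
      force (Nat.div X 128) (fun X' => digsK n X' (fun l => k (d :: l)))) = _
    rw [force_eq, force_eq, ih]
    rfl

/-- evaluated map -/
def mapK {β : Type} (f : ℕ → ℕ) (l : List ℕ) (k : List ℕ → β) : β :=
  (List.rec (fun k => k []) (fun x _ r k => force (f x) (fun y => r (fun l => k (y :: l)))) l :
    (List ℕ → β) → β) k

theorem mapK_eq {β : Type} (f : ℕ → ℕ) (l : List ℕ) (k : List ℕ → β) :
    mapK f l k = k (mapL f l) := by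
  induction l generalizing k with
  | nil => rfl
  | cons x l ih =>
    show force (f x) (fun y => mapK f l (fun l => k (y :: l))) = _
    rw [force_eq, ih]
    rfl

theorem mapL_id (l : List ℕ) : mapL (fun x => x) l = l := by
  rw [mapL_eq, List.map_id']

/-- evaluated list of pairs -/
def normP {β : Type} (l : List (ℕ × ℕ)) (k : List (ℕ × ℕ) → β) : β :=
  (List.rec (fun k => k []) (fun x _ r k => Prod.rec (fun a u => r (fun l => k ((a, u) :: l))) x) l :
    (List (ℕ × ℕ) → β) → β) k

theorem normP_eq {β : Type} (l : List (ℕ × ℕ)) (k : List (ℕ × ℕ) → β) : normP l k = k l := by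
  induction l generalizing k with
  | nil => rfl
  | cons x l ih =>
    obtain ⟨a, u⟩ := x
    show normP l (fun l => k ((a, u) :: l)) = _
    rw [ih]

/-- stage 8 -/
def chk8 (clos : List (ℕ × ℕ × ℕ)) (lu : List ℕ) (P FL : List (ℕ × ℕ)) : Bool :=
  bnd (good P FL) (allL (fun c => cl3 (get lu c.1) (get lu c.2.1) (get lu c.2.2)) clos)

/-- stage 7 -/
def chk7 (clos : List (ℕ × ℕ × ℕ)) (lu : List ℕ) (P : List (ℕ × ℕ)) : Bool :=
  normP (firsts P []) (chk8 clos lu P)

/-- stage 6 -/
def chk6 (clos : List (ℕ × ℕ × ℕ)) (la lu : List ℕ) : Bool := normP (zp la lu) (chk7 clos lu)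

/-- stage 5 -/
def chk5 (pos : List ℕ) (clos : List (ℕ × ℕ × ℕ)) (la L : List ℕ) : Bool :=
  mapK (get L) pos (chk6 clos la)

/-- stage 4 -/
def chk4 (d : ℕ) (pos : List ℕ) (clos : List (ℕ × ℕ × ℕ)) (h : ℕ) (la D1 : List ℕ) : Bool :=
  mapK (fun x => x) (app D1 (digs d (Nat.shiftRight h 4))) (chk5 pos clos la)

/-- stage 3 -/
def chk3 (q d : ℕ) (pos : List ℕ) (clos : List (ℕ × ℕ × ℕ)) (U h : ℕ) (la : List ℕ) : Bool :=
  digsK q U (chk4 d pos clos h la)

/-- stage 2 -/
def chk2 (m q d : ℕ) (pos : List ℕ) (clos : List (ℕ × ℕ × ℕ)) (U h : ℕ) (D : List ℕ) : Bool :=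
  bnd (allL (fun a => Nat.blt (Nat.mod a 16) 8) D)
    (mapK (fun x => x) (app (ite' (Nat.beq (Nat.mod h 2) 1) (mapL sw D) D)
      (newc m 24 (Nat.shiftRight h 1))) (chk3 q d pos clos U h))

/-- one rule -/
def chkR (p m q d : ℕ) (pos : List ℕ) (clos : List (ℕ × ℕ × ℕ)) (A U h : ℕ) : Bool :=
  digsK p A (chk2 m q d pos clos U h)

theorem chkR_eq (p m q d : ℕ) (pos : List ℕ) (clos : List (ℕ × ℕ × ℕ)) (A U h : ℕ) :
    chkR p m q d pos clos A U h = chk1 p m q d pos clos A U h := by
  unfold chkR chk2 chk3 chk4 chk5 chk6 chk7 chk8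
  simp only [digsK_eq, mapK_eq, mapL_id, normP_eq]
  rfl

/-! ### rules with the same target -/

/-- the set of sources of the rules with codes `hs` -/
def orAll (hs : List ℕ) : ℕ := List.rec 0 (fun h _ r => Nat.lor (Nat.shiftLeft 1 (Nat.mod h 2048)) r) hs

/-- the rules with one target -/
def entOK (p m q d : ℕ) (pos : List ℕ) (clos : List (ℕ × ℕ × ℕ)) (Sp U B : ℕ) (hs : List ℕ) : Bool :=
  bnd (Nat.beq (orAll hs) B)
    (allL (fun h => force (Nat.shiftRight h 11)
      (chkR p m q d pos clos (Nat.shiftRight Sp (Nat.mul 28 (Nat.mod h 2048))) U)) hs)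

theorem testBit_orAll {hs : List ℕ} {a : ℕ} (h : (orAll hs).testBit a = true) :
    ∃ x ∈ hs, x % 2048 = a := by
  induction hs with
  | nil =>
    have : (0 : ℕ).testBit a = true := h
    simp at this
  | cons y hs ih =>
    have h2 : ((1 <<< (y % 2048)) ||| orAll hs).testBit a = true := h
    rw [Nat.testBit_lor, Bool.or_eq_true, Nat.testBit_shiftLeft] at h2
    rcases h2 with h2 | h2
    · refine ⟨y, by simp, ?_⟩
      rw [Bool.and_eq_true] at h2
      obtain ⟨h3, h4⟩ := h2
      have h5 : y % 2048 ≤ a := by simpa using h3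
      have h6 : a - y % 2048 = 0 := Nat.testBit_one_eq_true_iff_self_eq_zero.1 h4
      omega
    · obtain ⟨x, hx, hx'⟩ := ih h2
      exact ⟨x, List.mem_cons_of_mem _ hx, hx'⟩

theorem entOK_eq {p m q d : ℕ} {pos : List ℕ} {clos : List (ℕ × ℕ × ℕ)} {Sp U B : ℕ} {hs : List ℕ}
    (h : entOK p m q d pos clos Sp U B hs = true) (a : ℕ) (ha : B.testBit a = true) :
    ∃ x, chk1 p m q d pos clos (Nat.shiftRight Sp (Nat.mul 28 a)) U x = true := by
  obtain ⟨h1, h2⟩ := bnd_eq h
  have h3 : orAll hs = B := Nat.eq_of_beq_eq_true h1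
  rw [← h3] at ha
  obtain ⟨x, hx, hx'⟩ := testBit_orAll ha
  have h4 := allL_eq h2 x hx
  beta_reduce at h4
  rw [force_eq, chkR_eq] at h4
  have h5 : Nat.mod x 2048 = a := hx'
  rw [h5] at h4
  exact ⟨_, h4⟩

/-- all pairs -/
def all2 {α β : Type} (f : α → β → Bool) (l : List α) (l' : List β) : Bool :=
  (List.rec (fun _ => true) (fun x _ r l' => List.rec false (fun y l'' _ => bnd (f x y) (r l'')) l') l :
    List β → Bool) l'

theorem all2_eq {α β : Type} {f : α → β → Bool} {l : List α} {l' : List β}
    (h : all2 f l l' = true) : ∀ x ∈ l, ∃ y, f x y = true := by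
  induction l generalizing l' with
  | nil => intro x hx; cases hx
  | cons a l ih =>
    cases l' with
    | nil => cases h
    | cons b l' =>
      have h2 : bnd (f a b) (all2 f l l') = true := h
      obtain ⟨h3, h4⟩ := bnd_eq h2
      intro x hx
      rcases List.mem_cons.1 hx with rfl | hx
      · exact ⟨b, h3⟩
      · exact ih h4 x hx

/-- `2 ^ 1024 - 1` -/
def mask : ℕ := 0xffffffffffffffffffffffffffffffffffffffffffffffffffffffffffffffffffffffffffffffffffffffffffffffffffffffffffffffffffffffffffffffffffffffffffffffffffffffffffffffffffffffffffffffffffffffffffffffffffffffffffffffffffffffffffffffffffffffffffffffffffffffffffffffff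

/-- the target number `i` of a group -/
def uAt (UU i : ℕ) : ℕ := Nat.mod (Nat.shiftRight UU (Nat.mul 11 i)) 2048

/-- the set of sources number `i` of a group -/
def bAt (BB i : ℕ) : ℕ := Nat.land (Nat.shiftRight BB (Nat.mul 1024 i)) mask

/-- a group of rules -/
def grpOK (p m q d : ℕ) (pos : List ℕ) (clos : List (ℕ × ℕ × ℕ)) (Sp Sq UU BB : ℕ)
    (H : List (List ℕ)) (i : ℕ) : Bool :=
  (List.rec (fun _ => true) (fun hs _ r i =>
    bnd (force (Nat.shiftRight Sq (Nat.mul 28 (uAt UU i)))
      (fun U => force (bAt BB i) (fun B => entOK p m q d pos clos Sp U B hs))) (r (Nat.succ i))) H :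
    ℕ → Bool) i

theorem grpOK_eq {p m q d : ℕ} {pos : List ℕ} {clos : List (ℕ × ℕ × ℕ)} {Sp Sq UU BB : ℕ}
    {H : List (List ℕ)} {lo : ℕ} (h : grpOK p m q d pos clos Sp Sq UU BB H lo = true)
    (i : ℕ) (h1 : lo ≤ i) (h2 : i < lo + H.length) (a : ℕ) (ha : (bAt BB i).testBit a = true) :
    ∃ x, chk1 p m q d pos clos (Nat.shiftRight Sp (Nat.mul 28 a))
      (Nat.shiftRight Sq (Nat.mul 28 (uAt UU i))) x = true := by
  induction H generalizing lo with
  | nil => simp at h2; omega
  | cons hs H ih =>
    have h3 : bnd (force (Nat.shiftRight Sq (Nat.mul 28 (uAt UU lo)))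
      (fun U => force (bAt BB lo) (fun B => entOK p m q d pos clos Sp U B hs)))
        (grpOK p m q d pos clos Sp Sq UU BB H (Nat.succ lo)) = true := h
    obtain ⟨h4, h5⟩ := bnd_eq h3
    rcases eq_or_lt_of_le h1 with rfl | hlt
    · rw [force_eq, force_eq] at h4
      exact entOK_eq h4 a ha
    · exact ih h5 hlt (by simp only [List.length_cons] at h2; omega)

/-- test of a bit -/
def tb (x k : ℕ) : Bool := Nat.beq (Nat.land (Nat.shiftRight x k) 1) 1

theorem tb_eq (x k : ℕ) : tb x k = x.testBit k := by
  unfold tb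
  rw [Nat.testBit_eq_decide_div_mod_eq, Bool.eq_iff_iff, decide_eq_true_iff]
  show Nat.beq ((x >>> k) &&& 1) 1 = true ↔ _
  rw [Nat.and_one_is_mod, Nat.shiftRight_eq_div_pow]
  exact ⟨Nat.eq_of_beq_eq_true, fun h => by rw [h]; rfl⟩

/-- the positions of the tracked edges -/
def posOK (n q : ℕ) (drop pos : List ℕ) : Bool :=
  bnd (allN (fun i => Nat.blt (get pos i) n) n)
    (bnd (allN (fun i => allN (fun j => imb (Nat.beq (get pos j) (get pos i)) false) i) n)
      (allN (fun i => ite' (memb i drop) (Nat.ble q (get pos i)) (Nat.blt (get pos i) q)) n))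

end Pool.Agent.JWW
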