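import Pool.Agent.JWW.Block

/-!
# Edges which meet a set of vertices
-/

set_option autoImplicit false

namespace Pool.Agent.JWW

variable {V : Type} [Fintype V] [DecidableEq V] (G : SimpleGraph V) [DecidableRel G.Adj]

/-- the edges which meet `S` -/
def es (S : Finset V) : Finset (Sym2 V) := G.edgeFinset.filter (fun e => ∃ v ∈ S, v ∈ e)

/-- the edges between `S` and its complement -/
def bd (S : Finset V) : Finset (Sym2 V) :=
  G.edgeFinset.filter (fun e => (∃ v ∈ S, v ∈ e) ∧ ∃ v ∉ S, v ∈ e)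

/-- the edges at `v` -/
def inc (v : V) : Finset (Sym2 V) := G.edgeFinset.filter (fun e => v ∈ e)

theorem mem_es {S : Finset V} {e : Sym2 V} : e ∈ es G S ↔ e ∈ G.edgeFinset ∧ ∃ v ∈ S, v ∈ e := by
  simp [es]

theorem mem_bd {S : Finset V} {e : Sym2 V} :
    e ∈ bd G S ↔ e ∈ G.edgeFinset ∧ (∃ v ∈ S, v ∈ e) ∧ ∃ v ∉ S, v ∈ e := by
  simp [bd]

theorem mem_inc {v : V} {e : Sym2 V} : e ∈ inc G v ↔ e ∈ G.edgeFinset ∧ v ∈ e := by
  simp [inc]

theorem card_inc (h : G.IsRegularOfDegree 3) (v : V) : (inc G v).card = 3 := by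
  have h1 : inc G v = G.incidenceFinset v := by
    ext e
    rw [mem_inc, SimpleGraph.mem_incidenceFinset, SimpleGraph.mem_edgeFinset]
    rfl
  rw [h1, SimpleGraph.card_incidenceFinset_eq_degree]
  exact h v

variable {G}

theorem es_empty : es G ∅ = ∅ := by
  ext e
  simp [mem_es]

theorem bd_empty : bd G ∅ = ∅ := by
  ext e
  simp [mem_bd]

theorem bd_univ : bd G Finset.univ = ∅ := by
  ext e
  simp [mem_bd]

theorem es_insert (S : Finset V) (v : V) : es G (insert v S) = es G S ∪ inc G v := by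
  ext e
  simp only [mem_es, Finset.mem_union, mem_inc, Finset.mem_insert]
  constructor
  · rintro ⟨he, w, rfl | hw, hw'⟩
    · exact Or.inr ⟨he, hw'⟩
    · exact Or.inl ⟨he, w, hw, hw'⟩
  · rintro (⟨he, w, hw, hw'⟩ | ⟨he, hw⟩)
    · exact ⟨he, w, Or.inr hw, hw'⟩
    · exact ⟨he, v, Or.inl rfl, hw⟩

omit [DecidableEq V] in
/-- an edge has exactly two ends -/
theorem ends {e : Sym2 V} (_he : e ∈ G.edgeFinset) {a b : V} (ha : a ∈ e) (hb : b ∈ e) (hab : a ≠ b)
    {c : V} (hc : c ∈ e) : c = a ∨ c = b := by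
  have h := (Sym2.mem_and_mem_iff hab).1 ⟨ha, hb⟩
  rw [h] at hc
  simpa using hc

omit [DecidableEq V] in
theorem other {e : Sym2 V} (he : e ∈ G.edgeFinset) {a : V} (ha : a ∈ e) : ∃ b, b ≠ a ∧ b ∈ e := by
  rw [SimpleGraph.mem_edgeFinset] at he
  induction e with
  | h x y =>
    rw [SimpleGraph.mem_edgeSet] at he
    rcases Sym2.mem_iff.1 ha with rfl | rfl
    · exact ⟨y, he.ne', by simp⟩
    · exact ⟨x, he.ne, by simp⟩

theorem bd_insert {S : Finset V} {v : V} (hv : v ∉ S) {e : Sym2 V} :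
    e ∈ bd G (insert v S) ↔ (e ∈ bd G S ∧ v ∉ e) ∨ (e ∈ inc G v ∧ e ∉ es G S) := by
  simp only [mem_bd, mem_inc, mem_es, Finset.mem_insert]
  constructor
  · rintro ⟨he, ⟨a, ha, hae⟩, b, hb, hbe⟩
    push Not at hb
    by_cases hve : v ∈ e
    · right
      refine ⟨⟨he, hve⟩, ?_⟩
      rintro ⟨-, c, hc, hce⟩
      have h1 : c ≠ v := fun h => hv (h ▸ hc)
      rcases ends he hve hbe (Ne.symm hb.1) hce with h | h
      · exact h1 h
      · exact hb.2 (h ▸ hc)
    · left
      refine ⟨⟨he, ⟨a, ?_, hae⟩, b, hb.2, hbe⟩, hve⟩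
      rcases ha with rfl | ha
      · exact absurd hae hve
      · exact ha
  · rintro (⟨⟨he, ⟨a, ha, hae⟩, b, hb, hbe⟩, hve⟩ | ⟨⟨he, hve⟩, hS⟩)
    · refine ⟨he, ⟨a, Or.inr ha, hae⟩, b, ?_, hbe⟩
      push Not
      exact ⟨fun h => hve (h ▸ hbe), hb⟩
    · obtain ⟨b, hb, hbe⟩ := other he hve
      refine ⟨he, ⟨v, Or.inl rfl, hve⟩, b, ?_, hbe⟩
      push Not
      exact ⟨hb, fun h => hS ⟨he, b, h, hbe⟩⟩

theorem bd_subset_es (S : Finset V) : bd G S ⊆ es G S := by
  intro e he
  rw [mem_bd] at he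
  exact mem_es G |>.2 ⟨he.1, he.2.1⟩

/-- an edge at an outer vertex which meets `S` is a boundary edge -/
theorem mem_bd_of {S : Finset V} {v : V} (hv : v ∉ S) {e : Sym2 V} (h1 : e ∈ inc G v)
    (h2 : e ∈ es G S) : e ∈ bd G S := by
  rw [mem_inc] at h1
  rw [mem_es] at h2
  exact mem_bd G |>.2 ⟨h1.1, h2.2, v, hv, h1.2⟩

/-- the number of edges between `v` and `S` -/
def nb (G : SimpleGraph V) [DecidableRel G.Adj] (S : Finset V) (v : V) : ℕ := (inc G v ∩ es G S).card

theorem card_sdiff_inc (hG : G.IsRegularOfDegree 3) (S : Finset V) (v : V) :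
    (inc G v \ es G S).card + nb G S v = 3 := by
  rw [← card_inc G hG v]
  unfold nb
  rw [Finset.inter_comm]
  have := Finset.card_sdiff_add_card_inter (inc G v) (es G S)
  rw [Finset.inter_comm] at this
  exact this

theorem card_bd_insert (hG : G.IsRegularOfDegree 3) {S : Finset V} {v : V} (hv : v ∉ S) :
    (bd G (insert v S)).card + 2 * nb G S v = (bd G S).card + 3 := by
  have h1 : bd G (insert v S) = (bd G S \ (inc G v ∩ es G S)) ∪ (inc G v \ es G S) := by
    ext e
    rw [bd_insert hv]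
    simp only [Finset.mem_union, Finset.mem_sdiff, Finset.mem_inter]
    constructor
    · rintro (⟨h, h'⟩ | ⟨h, h'⟩)
      · exact Or.inl ⟨h, fun h2 => h' (mem_inc G |>.1 h2.1).2⟩
      · exact Or.inr ⟨h, h'⟩
    · rintro (⟨h, h'⟩ | ⟨h, h'⟩)
      · refine Or.inl ⟨h, fun h2 => h' ⟨mem_inc G |>.2 ⟨(mem_bd G |>.1 h).1, h2⟩, bd_subset_es S h⟩⟩
      · exact Or.inr ⟨h, h'⟩
  have h2 : Disjoint (bd G S \ (inc G v ∩ es G S)) (inc G v \ es G S) := by
    rw [Finset.disjoint_left]
    intro e he he'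
    rw [Finset.mem_sdiff] at he he'
    exact he'.2 (bd_subset_es S he.1)
  have h3 : inc G v ∩ es G S ⊆ bd G S := by
    intro e he
    rw [Finset.mem_inter] at he
    exact mem_bd_of hv he.1 he.2
  rw [h1, Finset.card_union_of_disjoint h2]
  have h4 := Finset.card_sdiff_add_card_eq_card h3
  have h5 := card_sdiff_inc hG S v
  unfold nb at *
  omega

theorem nb_mono {S S' : Finset V} (h : S ⊆ S') (v : V) : nb G S v ≤ nb G S' v := by
  unfold nb
  apply Finset.card_le_card
  intro e he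
  rw [Finset.mem_inter] at he ⊢
  refine ⟨he.1, ?_⟩
  obtain ⟨h1, w, hw, hw'⟩ := (mem_es G).1 he.2
  exact (mem_es G).2 ⟨h1, w, h hw, hw'⟩

/-! ### good sets -/

/-- all sets `S ∪ {v | σ v < j}` have at most five boundary edges -/
def Good (G : SimpleGraph V) [DecidableRel G.Adj] (σ : V → ℕ) (S : Finset V) : Prop :=
  ∀ j, (bd G (S ∪ Finset.univ.filter (fun v => σ v < j))).card ≤ 5

theorem Good.card {σ : V → ℕ} {S : Finset V} (h : Good G σ S) : (bd G S).card ≤ 5 := by
  have := h 0
  simpa using this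

theorem Good.absorb (hG : G.IsRegularOfDegree 3) {σ : V → ℕ} {S : Finset V} (h : Good G σ S) {v : V}
    (hv2 : 2 ≤ nb G S v) : Good G σ (insert v S) := by
  intro j
  rw [Finset.insert_union]
  by_cases hvX : v ∈ S ∪ Finset.univ.filter (fun v => σ v < j)
  · rw [Finset.insert_eq_of_mem hvX]
    exact h j
  · have h1 := card_bd_insert hG hvX
    have h2 := nb_mono (G := G) (Finset.subset_union_left (s₁ := S) (s₂ := Finset.univ.filter (fun v => σ v < j))) v
    have h3 := h j
    omega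

theorem Good.next {σ : V → ℕ} (hσ : Function.Injective σ) {S : Finset V} (h : Good G σ S)
    (hS : S ≠ Finset.univ) : ∃ v, v ∉ S ∧ Good G σ (insert v S) := by
  have hne : (Finset.univ \ S).Nonempty := by
    rw [Finset.sdiff_nonempty]
    intro h
    exact hS (Finset.univ_subset_iff.1 h)
  obtain ⟨v, hv, hmin⟩ := Finset.exists_min_image _ σ hne
  have hvS : v ∉ S := by simpa using hv
  refine ⟨v, hvS, ?_⟩
  intro j
  rcases le_or_gt j (σ v) with hj | hj
  · have h1 : insert v S ∪ Finset.univ.filter (fun v => σ v < j) =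
        S ∪ Finset.univ.filter (fun w => σ w < σ v + 1) := by
      ext w
      simp only [Finset.mem_union, Finset.mem_insert, Finset.mem_filter, Finset.mem_univ, true_and]
      constructor
      · rintro ((rfl | h) | h)
        · right; omega
        · left; exact h
        · right; omega
      · rintro (h | h)
        · left; right; exact h
        · rcases lt_or_eq_of_le (Nat.lt_succ_iff.1 h) with h | h
          · by_cases hw : w ∈ S
            · left; right; exact hw
            · exfalso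
              have := hmin w (by simpa using hw)
              omega
          · left; left; exact hσ h
    rw [h1]
    exact h _
  · have h1 : insert v S ∪ Finset.univ.filter (fun v => σ v < j) =
        S ∪ Finset.univ.filter (fun v => σ v < j) := by
      rw [Finset.insert_union, Finset.insert_eq_of_mem]
      simp [hj]
    rw [h1]
    exact h j

/-! ### lists -/

/-- enumeration of a finite set -/
theorem enum {α : Type} [Nonempty α] (A : Finset α) : ∃ n : ℕ → α,
    (∀ x < A.card, n x ∈ A) ∧ (∀ e ∈ A, ∃ x < A.card, n x = e) ∧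
    ∀ x < A.card, ∀ y < A.card, n x = n y → x = y := by
  classical
  let E := A.equivFin
  refine ⟨fun x => if h : x < A.card then (E.symm ⟨x, h⟩ : α) else Classical.arbitrary α, ?_, ?_, ?_⟩
  · intro x hx
    simp only [dif_pos hx]
    exact (E.symm ⟨x, hx⟩).2
  · intro e he
    refine ⟨(E ⟨e, he⟩ : ℕ), (E ⟨e, he⟩).2, ?_⟩
    simp
  · intro x hx y hy hxy
    simp only [dif_pos hx, dif_pos hy] at hxy
    have h1 := E.symm.injective (Subtype.ext hxy)
    exact congrArg Fin.val h1

end Pool.Agent.JWW
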