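import Pool.Agent.JWW.R00
import Pool.Agent.JWW.R01
import Pool.Agent.JWW.R02
import Pool.Agent.JWW.R03
import Pool.Agent.JWW.R04
import Pool.Agent.JWW.R05
import Pool.Agent.JWW.R06
import Pool.Agent.JWW.R07
import Pool.Agent.JWW.R08
import Pool.Agent.JWW.R09
import Pool.Agent.JWW.R10

/-!
# The groups of rules and the tables
-/

set_option autoImplicit false
set_option maxRecDepth 100000

namespace Pool.Agent.JWW

/-- the groups of rules -/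
def grps : List Grp := [
  (0, 0, [0, 1, 2], 3, 4, gU0, gB0),
  (1, 0, [0, 1, 2, 3], 4, 8, gU1, gB1),
  (1, 1, [2, 0, 1], 2, 3, gU2, gB2),
  (2, 0, [3, 2, 0, 1], 3, 20, gU3, gB3),
  (2, 1, [2, 3, 0, 1], 3, 20, gU4, gB4),
  (2, 2, [1, 2, 0], 1, 1, gU5, gB5),
  (3, 0, [4, 0, 1, 2, 3], 4, 242, gU6, gB6),
  (3, 0, [4, 2, 3, 0, 1], 4, 47, gU7, gB7),
  (3, 0, [4, 3, 2, 0, 1], 4, 25, gU8, gB8),
  (3, 1, [0, 4, 1, 2, 3], 4, 204, gU9, gB9),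
  (3, 1, [2, 4, 3, 0, 1], 4, 76, gU10, gB10),
  (3, 1, [3, 4, 2, 0, 1], 4, 79, gU11, gB11),
  (3, 2, [0, 1, 4, 2, 3], 4, 180, gU12, gB12),
  (3, 2, [1, 0, 4, 2, 3], 4, 117, gU13, gB13),
  (3, 2, [2, 3, 4, 0, 1], 4, 104, gU14, gB14),
  (3, 2, [3, 2, 4, 0, 1], 4, 97, gU15, gB15),
  (3, 3, [2, 3, 0, 1], 2, 6, gU16, gB16),
  (3, 4, [2, 0, 3, 1], 2, 8, gU17, gB17),
  (3, 5, [0, 2, 3, 1], 2, 8, gU18, gB18),
  (3, 6, [0, 1, 2], 0, 1, gU19, gB19),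
  (4, 0, [3, 4, 0, 1, 2], 3, 66, gU20, gB20),
  (4, 0, [3, 4, 0, 2, 1], 3, 27, gU21, gB21),
  (4, 0, [3, 4, 1, 0, 2], 3, 24, gU22, gB22),
  (4, 1, [3, 0, 4, 1, 2], 3, 91, gU23, gB23),
  (4, 1, [3, 0, 4, 2, 1], 3, 87, gU24, gB24),
  (4, 1, [3, 1, 4, 0, 2], 3, 49, gU25, gB25),
  (4, 1, [3, 1, 4, 2, 0], 3, 68, gU26, gB26),
  (4, 1, [3, 2, 4, 0, 1], 3, 41, gU27, gB27),
  (4, 1, [3, 2, 4, 1, 0], 3, 24, gU28, gB28),
  (4, 2, [3, 0, 1, 4, 2], 3, 99, gU29, gB29),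
  (4, 2, [3, 0, 2, 4, 1], 3, 69, gU30, gB30),
  (4, 2, [3, 1, 0, 4, 2], 3, 48, gU31, gB31),
  (4, 2, [3, 1, 2, 4, 0], 3, 61, gU32, gB32),
  (4, 2, [3, 2, 0, 4, 1], 3, 53, gU33, gB33),
  (4, 2, [3, 2, 1, 4, 0], 3, 16, gU34, gB34),
  (4, 3, [0, 3, 4, 1, 2], 3, 100, gU35, gB35),
  (4, 3, [0, 3, 4, 2, 1], 3, 78, gU36, gB36),
  (4, 3, [1, 3, 4, 0, 2], 3, 30, gU37, gB37),
  (4, 3, [1, 3, 4, 2, 0], 3, 60, gU38, gB38),
  (4, 3, [2, 3, 4, 0, 1], 3, 51, gU39, gB39),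
  (4, 3, [2, 3, 4, 1, 0], 3, 11, gU40, gB40),
  (4, 4, [0, 3, 1, 4, 2], 3, 84, gU41, gB41),
  (4, 4, [0, 3, 2, 4, 1], 3, 54, gU42, gB42),
  (4, 4, [1, 3, 0, 4, 2], 3, 54, gU43, gB43),
  (4, 4, [1, 3, 2, 4, 0], 3, 57, gU44, gB44),
  (4, 4, [2, 3, 0, 4, 1], 3, 31, gU45, gB45),
  (4, 4, [2, 3, 1, 4, 0], 3, 11, gU46, gB46),
  (4, 5, [0, 1, 3, 4, 2], 3, 55, gU47, gB47),
  (4, 5, [0, 2, 3, 4, 1], 3, 36, gU48, gB48),
  (4, 5, [1, 0, 3, 4, 2], 3, 13, gU49, gB49),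
  (4, 5, [2, 0, 3, 4, 1], 3, 31, gU50, gB50),
  (4, 6, [1, 2, 3, 0], 1, 1, gU51, gB51),
  (4, 7, [1, 2, 0, 3], 1, 1, gU52, gB52),
  (4, 8, [1, 0, 2, 3], 1, 1, gU53, gB53),
  (4, 9, [0, 1, 2, 3], 1, 1, gU54, gB54),
  (4, 10, [4, 5, 0, 1, 6, 2, 3], 4, 430, gU55, gB55),
  (4, 10, [4, 5, 0, 1, 6, 3, 2], 4, 210, gU56, gB56),
  (4, 10, [4, 5, 1, 0, 6, 2, 3], 4, 110, gU57, gB57),
  (4, 10, [4, 5, 1, 0, 6, 3, 2], 4, 173, gU58, gB58),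
  (4, 10, [4, 5, 2, 3, 6, 0, 1], 4, 256, gU59, gB59),
  (4, 10, [4, 5, 3, 2, 6, 1, 0], 4, 111, gU60, gB60),
  (4, 11, [4, 0, 5, 1, 6, 2, 3], 4, 653, gU61, gB61),
  (4, 11, [4, 0, 5, 2, 6, 1, 3], 4, 150, gU62, gB62),
  (4, 11, [4, 1, 5, 0, 6, 3, 2], 4, 234, gU63, gB63),
  (4, 11, [4, 1, 5, 3, 6, 0, 2], 4, 120, gU64, gB64),
  (4, 11, [4, 2, 5, 3, 6, 0, 1], 4, 71, gU65, gB65),
  (4, 12, [4, 0, 1, 5, 6, 2, 3], 4, 649, gU66, gB66),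
  (4, 12, [4, 0, 1, 5, 6, 3, 2], 4, 74, gU67, gB67),
  (4, 12, [4, 0, 2, 5, 6, 1, 3], 4, 150, gU68, gB68),
  (4, 12, [4, 1, 0, 5, 6, 2, 3], 4, 77, gU69, gB69),
  (4, 12, [4, 1, 0, 5, 6, 3, 2], 4, 266, gU70, gB70),
  (4, 12, [4, 1, 3, 5, 6, 0, 2], 4, 120, gU71, gB71),
  (4, 12, [4, 2, 3, 5, 6, 0, 1], 4, 74, gU72, gB72),
  (4, 13, [0, 4, 5, 1, 6, 2, 3], 4, 646, gU73, gB73),
  (4, 13, [0, 4, 5, 1, 6, 3, 2], 4, 42, gU74, gB74),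
  (4, 13, [0, 4, 5, 2, 6, 1, 3], 4, 123, gU75, gB75),
  (4, 13, [1, 4, 5, 0, 6, 3, 2], 4, 290, gU76, gB76),
  (4, 13, [1, 4, 5, 3, 6, 0, 2], 4, 133, gU77, gB77),
  (4, 14, [0, 4, 1, 5, 6, 2, 3], 4, 662, gU78, gB78),
  (4, 14, [0, 4, 1, 5, 6, 3, 2], 4, 126, gU79, gB79),
  (4, 14, [0, 4, 2, 5, 6, 1, 3], 4, 123, gU80, gB80),
  (4, 14, [1, 4, 0, 5, 6, 2, 3], 4, 110, gU81, gB81),
  (4, 14, [1, 4, 0, 5, 6, 3, 2], 4, 311, gU82, gB82),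
  (4, 14, [1, 4, 3, 5, 6, 0, 2], 4, 133, gU83, gB83),
  (4, 14, [2, 4, 3, 5, 6, 0, 1], 4, 45, gU84, gB84),
  (4, 14, [3, 4, 2, 5, 6, 1, 0], 4, 85, gU85, gB85),
  (4, 15, [0, 1, 4, 5, 6, 2, 3], 4, 418, gU86, gB86),
  (4, 15, [0, 1, 4, 5, 6, 3, 2], 4, 244, gU87, gB87),
  (4, 15, [1, 0, 4, 5, 6, 2, 3], 4, 197, gU88, gB88),
  (4, 15, [1, 0, 4, 5, 6, 3, 2], 4, 190, gU89, gB89),
  (4, 15, [2, 3, 4, 5, 6, 0, 1], 4, 101, gU90, gB90),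
  (4, 15, [3, 2, 4, 5, 6, 0, 1], 4, 45, gU91, gB91),
  (4, 15, [3, 2, 4, 5, 6, 1, 0], 4, 41, gU92, gB92)]

theorem gs0 : gst 0 3 3 4 gH0.length [0, 1, 2] [] = true := by
  decide +kernel

theorem gg0 : GOK sts (0, 0, [0, 1, 2], 3, 4, gU0, gB0) :=
  GOK_of (clos := [(0, 1, 2)]) rfl gs0 gok0

theorem gs1 : gst 1 3 4 8 gH1.length [0, 1, 2, 3] [] = true := by
  decide +kernel

theorem gg1 : GOK sts (1, 0, [0, 1, 2, 3], 4, 8, gU1, gB1) :=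
  GOK_of (clos := [(1, 2, 3)]) rfl gs1 gok1

theorem gs2 : gst 1 2 2 3 gH2.length [2, 0, 1] [0] = true := by
  decide +kernel

theorem gg2 : GOK sts (1, 1, [2, 0, 1], 2, 3, gU2, gB2) :=
  GOK_of (clos := [(0, 1, 2)]) rfl gs2 gok2

theorem gs3 : gst 2 2 3 20 gH3.length [3, 2, 0, 1] [0] = true := by
  decide +kernel

theorem gg3 : GOK sts (2, 0, [3, 2, 0, 1], 3, 20, gU3, gB3) :=
  GOK_of (clos := [(0, 2, 3)]) rfl gs3 gok3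

theorem gs4 : gst 2 2 3 20 gH4.length [2, 3, 0, 1] [1] = true := by
  decide +kernel

theorem gg4 : GOK sts (2, 1, [2, 3, 0, 1], 3, 20, gU4, gB4) :=
  GOK_of (clos := [(1, 2, 3)]) rfl gs4 gok4

theorem gs5 : gst 2 1 1 1 gH5.length [1, 2, 0] [0, 1] = true := by
  decide +kernel

theorem gg5 : GOK sts (2, 2, [1, 2, 0], 1, 1, gU5, gB5) :=
  GOK_of (clos := [(0, 1, 2)]) rfl gs5 gok5

theorem gs6 : gst 3 2 4 242 gH6.length [4, 0, 1, 2, 3] [0] = true := by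
  decide +kernel

theorem gg6 : GOK sts (3, 0, [4, 0, 1, 2, 3], 4, 242, gU6, gB6) :=
  GOK_of (clos := [(0, 3, 4)]) rfl gs6 gok6

theorem gs7 : gst 3 2 4 47 gH7.length [4, 2, 3, 0, 1] [0] = true := by
  decide +kernel

theorem gg7 : GOK sts (3, 0, [4, 2, 3, 0, 1], 4, 47, gU7, gB7) :=
  GOK_of (clos := [(0, 3, 4)]) rfl gs7 gok7

theorem gs8 : gst 3 2 4 25 gH8.length [4, 3, 2, 0, 1] [0] = true := by
  decide +kernel

theorem gg8 : GOK sts (3, 0, [4, 3, 2, 0, 1], 4, 25, gU8, gB8) :=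
  GOK_of (clos := [(0, 3, 4)]) rfl gs8 gok8

theorem gs9 : gst 3 2 4 204 gH9.length [0, 4, 1, 2, 3] [1] = true := by
  decide +kernel

theorem gg9 : GOK sts (3, 1, [0, 4, 1, 2, 3], 4, 204, gU9, gB9) :=
  GOK_of (clos := [(1, 3, 4)]) rfl gs9 gok9

theorem gs10 : gst 3 2 4 76 gH10.length [2, 4, 3, 0, 1] [1] = true := by
  decide +kernel

theorem gg10 : GOK sts (3, 1, [2, 4, 3, 0, 1], 4, 76, gU10, gB10) :=
  GOK_of (clos := [(1, 3, 4)]) rfl gs10 gok10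

theorem gs11 : gst 3 2 4 79 gH11.length [3, 4, 2, 0, 1] [1] = true := by
  decide +kernel

theorem gg11 : GOK sts (3, 1, [3, 4, 2, 0, 1], 4, 79, gU11, gB11) :=
  GOK_of (clos := [(1, 3, 4)]) rfl gs11 gok11

theorem gs12 : gst 3 2 4 180 gH12.length [0, 1, 4, 2, 3] [2] = true := by
  decide +kernel

theorem gg12 : GOK sts (3, 2, [0, 1, 4, 2, 3], 4, 180, gU12, gB12) :=
  GOK_of (clos := [(2, 3, 4)]) rfl gs12 gok12

theorem gs13 : gst 3 2 4 117 gH13.length [1, 0, 4, 2, 3] [2] = true := by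
  decide +kernel

theorem gg13 : GOK sts (3, 2, [1, 0, 4, 2, 3], 4, 117, gU13, gB13) :=
  GOK_of (clos := [(2, 3, 4)]) rfl gs13 gok13

theorem gs14 : gst 3 2 4 104 gH14.length [2, 3, 4, 0, 1] [2] = true := by
  decide +kernel

theorem gg14 : GOK sts (3, 2, [2, 3, 4, 0, 1], 4, 104, gU14, gB14) :=
  GOK_of (clos := [(2, 3, 4)]) rfl gs14 gok14

theorem gs15 : gst 3 2 4 97 gH15.length [3, 2, 4, 0, 1] [2] = true := by
  decide +kernel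

theorem gg15 : GOK sts (3, 2, [3, 2, 4, 0, 1], 4, 97, gU15, gB15) :=
  GOK_of (clos := [(2, 3, 4)]) rfl gs15 gok15

theorem gs16 : gst 3 1 2 6 gH16.length [2, 3, 0, 1] [0, 1] = true := by
  decide +kernel

theorem gg16 : GOK sts (3, 3, [2, 3, 0, 1], 2, 6, gU16, gB16) :=
  GOK_of (clos := [(0, 1, 3)]) rfl gs16 gok16

theorem gs17 : gst 3 1 2 8 gH17.length [2, 0, 3, 1] [0, 2] = true := by
  decide +kernel

theorem gg17 : GOK sts (3, 4, [2, 0, 3, 1], 2, 8, gU17, gB17) :=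
  GOK_of (clos := [(0, 2, 3)]) rfl gs17 gok17

theorem gs18 : gst 3 1 2 8 gH18.length [0, 2, 3, 1] [1, 2] = true := by
  decide +kernel

theorem gg18 : GOK sts (3, 5, [0, 2, 3, 1], 2, 8, gU18, gB18) :=
  GOK_of (clos := [(1, 2, 3)]) rfl gs18 gok18

theorem gs19 : gst 3 0 0 1 gH19.length [0, 1, 2] [0, 1, 2] = true := by
  decide +kernel

theorem gg19 : GOK sts (3, 6, [0, 1, 2], 0, 1, gU19, gB19) :=
  GOK_of (clos := [(0, 1, 2)]) rfl gs19 gok19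

theorem gs20 : gst 4 1 3 66 gH20.length [3, 4, 0, 1, 2] [0, 1] = true := by
  decide +kernel

theorem gg20 : GOK sts (4, 0, [3, 4, 0, 1, 2], 3, 66, gU20, gB20) :=
  GOK_of (clos := [(0, 1, 4)]) rfl gs20 gok20

theorem gs21 : gst 4 1 3 27 gH21.length [3, 4, 0, 2, 1] [0, 1] = true := by
  decide +kernel

theorem gg21 : GOK sts (4, 0, [3, 4, 0, 2, 1], 3, 27, gU21, gB21) :=
  GOK_of (clos := [(0, 1, 4)]) rfl gs21 gok21

theorem gs22 : gst 4 1 3 24 gH22.length [3, 4, 1, 0, 2] [0, 1] = true := by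
  decide +kernel

theorem gg22 : GOK sts (4, 0, [3, 4, 1, 0, 2], 3, 24, gU22, gB22) :=
  GOK_of (clos := [(0, 1, 4)]) rfl gs22 gok22

theorem gs23 : gst 4 1 3 91 gH23.length [3, 0, 4, 1, 2] [0, 2] = true := by
  decide +kernel

theorem gg23 : GOK sts (4, 1, [3, 0, 4, 1, 2], 3, 91, gU23, gB23) :=
  GOK_of (clos := [(0, 2, 4)]) rfl gs23 gok23

theorem gs24 : gst 4 1 3 87 gH24.length [3, 0, 4, 2, 1] [0, 2] = true := by
  decide +kernel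

theorem gg24 : GOK sts (4, 1, [3, 0, 4, 2, 1], 3, 87, gU24, gB24) :=
  GOK_of (clos := [(0, 2, 4)]) rfl gs24 gok24

theorem gs25 : gst 4 1 3 49 gH25.length [3, 1, 4, 0, 2] [0, 2] = true := by
  decide +kernel

theorem gg25 : GOK sts (4, 1, [3, 1, 4, 0, 2], 3, 49, gU25, gB25) :=
  GOK_of (clos := [(0, 2, 4)]) rfl gs25 gok25

theorem gs26 : gst 4 1 3 68 gH26.length [3, 1, 4, 2, 0] [0, 2] = true := by
  decide +kernel

theorem gg26 : GOK sts (4, 1, [3, 1, 4, 2, 0], 3, 68, gU26, gB26) :=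
  GOK_of (clos := [(0, 2, 4)]) rfl gs26 gok26

theorem gs27 : gst 4 1 3 41 gH27.length [3, 2, 4, 0, 1] [0, 2] = true := by
  decide +kernel

theorem gg27 : GOK sts (4, 1, [3, 2, 4, 0, 1], 3, 41, gU27, gB27) :=
  GOK_of (clos := [(0, 2, 4)]) rfl gs27 gok27

theorem gs28 : gst 4 1 3 24 gH28.length [3, 2, 4, 1, 0] [0, 2] = true := by
  decide +kernel

theorem gg28 : GOK sts (4, 1, [3, 2, 4, 1, 0], 3, 24, gU28, gB28) :=
  GOK_of (clos := [(0, 2, 4)]) rfl gs28 gok28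

theorem gs29 : gst 4 1 3 99 gH29.length [3, 0, 1, 4, 2] [0, 3] = true := by
  decide +kernel

theorem gg29 : GOK sts (4, 2, [3, 0, 1, 4, 2], 3, 99, gU29, gB29) :=
  GOK_of (clos := [(0, 3, 4)]) rfl gs29 gok29

theorem gs30 : gst 4 1 3 69 gH30.length [3, 0, 2, 4, 1] [0, 3] = true := by
  decide +kernel

theorem gg30 : GOK sts (4, 2, [3, 0, 2, 4, 1], 3, 69, gU30, gB30) :=
  GOK_of (clos := [(0, 3, 4)]) rfl gs30 gok30

theorem gs31 : gst 4 1 3 48 gH31.length [3, 1, 0, 4, 2] [0, 3] = true := by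
  decide +kernel

theorem gg31 : GOK sts (4, 2, [3, 1, 0, 4, 2], 3, 48, gU31, gB31) :=
  GOK_of (clos := [(0, 3, 4)]) rfl gs31 gok31

theorem gs32 : gst 4 1 3 61 gH32.length [3, 1, 2, 4, 0] [0, 3] = true := by
  decide +kernel

theorem gg32 : GOK sts (4, 2, [3, 1, 2, 4, 0], 3, 61, gU32, gB32) :=
  GOK_of (clos := [(0, 3, 4)]) rfl gs32 gok32

theorem gs33 : gst 4 1 3 53 gH33.length [3, 2, 0, 4, 1] [0, 3] = true := by
  decide +kernel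

theorem gg33 : GOK sts (4, 2, [3, 2, 0, 4, 1], 3, 53, gU33, gB33) :=
  GOK_of (clos := [(0, 3, 4)]) rfl gs33 gok33

theorem gs34 : gst 4 1 3 16 gH34.length [3, 2, 1, 4, 0] [0, 3] = true := by
  decide +kernel

theorem gg34 : GOK sts (4, 2, [3, 2, 1, 4, 0], 3, 16, gU34, gB34) :=
  GOK_of (clos := [(0, 3, 4)]) rfl gs34 gok34

theorem gs35 : gst 4 1 3 100 gH35.length [0, 3, 4, 1, 2] [1, 2] = true := by
  decide +kernel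

theorem gg35 : GOK sts (4, 3, [0, 3, 4, 1, 2], 3, 100, gU35, gB35) :=
  GOK_of (clos := [(1, 2, 4)]) rfl gs35 gok35

theorem gs36 : gst 4 1 3 78 gH36.length [0, 3, 4, 2, 1] [1, 2] = true := by
  decide +kernel

theorem gg36 : GOK sts (4, 3, [0, 3, 4, 2, 1], 3, 78, gU36, gB36) :=
  GOK_of (clos := [(1, 2, 4)]) rfl gs36 gok36

theorem gs37 : gst 4 1 3 30 gH37.length [1, 3, 4, 0, 2] [1, 2] = true := by
  decide +kernel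

theorem gg37 : GOK sts (4, 3, [1, 3, 4, 0, 2], 3, 30, gU37, gB37) :=
  GOK_of (clos := [(1, 2, 4)]) rfl gs37 gok37

theorem gs38 : gst 4 1 3 60 gH38.length [1, 3, 4, 2, 0] [1, 2] = true := by
  decide +kernel

theorem gg38 : GOK sts (4, 3, [1, 3, 4, 2, 0], 3, 60, gU38, gB38) :=
  GOK_of (clos := [(1, 2, 4)]) rfl gs38 gok38

theorem gs39 : gst 4 1 3 51 gH39.length [2, 3, 4, 0, 1] [1, 2] = true := by
  decide +kernel

theorem gg39 : GOK sts (4, 3, [2, 3, 4, 0, 1], 3, 51, gU39, gB39) :=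
  GOK_of (clos := [(1, 2, 4)]) rfl gs39 gok39

theorem gs40 : gst 4 1 3 11 gH40.length [2, 3, 4, 1, 0] [1, 2] = true := by
  decide +kernel

theorem gg40 : GOK sts (4, 3, [2, 3, 4, 1, 0], 3, 11, gU40, gB40) :=
  GOK_of (clos := [(1, 2, 4)]) rfl gs40 gok40

theorem gs41 : gst 4 1 3 84 gH41.length [0, 3, 1, 4, 2] [1, 3] = true := by
  decide +kernel

theorem gg41 : GOK sts (4, 4, [0, 3, 1, 4, 2], 3, 84, gU41, gB41) :=
  GOK_of (clos := [(1, 3, 4)]) rfl gs41 gok41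

theorem gs42 : gst 4 1 3 54 gH42.length [0, 3, 2, 4, 1] [1, 3] = true := by
  decide +kernel

theorem gg42 : GOK sts (4, 4, [0, 3, 2, 4, 1], 3, 54, gU42, gB42) :=
  GOK_of (clos := [(1, 3, 4)]) rfl gs42 gok42

theorem gs43 : gst 4 1 3 54 gH43.length [1, 3, 0, 4, 2] [1, 3] = true := by
  decide +kernel

theorem gg43 : GOK sts (4, 4, [1, 3, 0, 4, 2], 3, 54, gU43, gB43) :=
  GOK_of (clos := [(1, 3, 4)]) rfl gs43 gok43

theorem gs44 : gst 4 1 3 57 gH44.length [1, 3, 2, 4, 0] [1, 3] = true := by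
  decide +kernel

theorem gg44 : GOK sts (4, 4, [1, 3, 2, 4, 0], 3, 57, gU44, gB44) :=
  GOK_of (clos := [(1, 3, 4)]) rfl gs44 gok44

theorem gs45 : gst 4 1 3 31 gH45.length [2, 3, 0, 4, 1] [1, 3] = true := by
  decide +kernel

theorem gg45 : GOK sts (4, 4, [2, 3, 0, 4, 1], 3, 31, gU45, gB45) :=
  GOK_of (clos := [(1, 3, 4)]) rfl gs45 gok45

theorem gs46 : gst 4 1 3 11 gH46.length [2, 3, 1, 4, 0] [1, 3] = true := by
  decide +kernel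

theorem gg46 : GOK sts (4, 4, [2, 3, 1, 4, 0], 3, 11, gU46, gB46) :=
  GOK_of (clos := [(1, 3, 4)]) rfl gs46 gok46

theorem gs47 : gst 4 1 3 55 gH47.length [0, 1, 3, 4, 2] [2, 3] = true := by
  decide +kernel

theorem gg47 : GOK sts (4, 5, [0, 1, 3, 4, 2], 3, 55, gU47, gB47) :=
  GOK_of (clos := [(2, 3, 4)]) rfl gs47 gok47

theorem gs48 : gst 4 1 3 36 gH48.length [0, 2, 3, 4, 1] [2, 3] = true := by
  decide +kernel

theorem gg48 : GOK sts (4, 5, [0, 2, 3, 4, 1], 3, 36, gU48, gB48) :=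
  GOK_of (clos := [(2, 3, 4)]) rfl gs48 gok48

theorem gs49 : gst 4 1 3 13 gH49.length [1, 0, 3, 4, 2] [2, 3] = true := by
  decide +kernel

theorem gg49 : GOK sts (4, 5, [1, 0, 3, 4, 2], 3, 13, gU49, gB49) :=
  GOK_of (clos := [(2, 3, 4)]) rfl gs49 gok49

theorem gs50 : gst 4 1 3 31 gH50.length [2, 0, 3, 4, 1] [2, 3] = true := by
  decide +kernel

theorem gg50 : GOK sts (4, 5, [2, 0, 3, 4, 1], 3, 31, gU50, gB50) :=
  GOK_of (clos := [(2, 3, 4)]) rfl gs50 gok50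

theorem gs51 : gst 4 0 1 1 gH51.length [1, 2, 3, 0] [0, 1, 2] = true := by
  decide +kernel

theorem gg51 : GOK sts (4, 6, [1, 2, 3, 0], 1, 1, gU51, gB51) :=
  GOK_of (clos := [(0, 1, 2)]) rfl gs51 gok51

theorem gs52 : gst 4 0 1 1 gH52.length [1, 2, 0, 3] [0, 1, 3] = true := by
  decide +kernel

theorem gg52 : GOK sts (4, 7, [1, 2, 0, 3], 1, 1, gU52, gB52) :=
  GOK_of (clos := [(0, 1, 3)]) rfl gs52 gok52

theorem gs53 : gst 4 0 1 1 gH53.length [1, 0, 2, 3] [0, 2, 3] = true := by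
  decide +kernel

theorem gg53 : GOK sts (4, 8, [1, 0, 2, 3], 1, 1, gU53, gB53) :=
  GOK_of (clos := [(0, 2, 3)]) rfl gs53 gok53

theorem gs54 : gst 4 0 1 1 gH54.length [0, 1, 2, 3] [1, 2, 3] = true := by
  decide +kernel

theorem gg54 : GOK sts (4, 9, [0, 1, 2, 3], 1, 1, gU54, gB54) :=
  GOK_of (clos := [(1, 2, 3)]) rfl gs54 gok54

theorem gs55 : gst 4 3 4 430 gH55.length [4, 5, 0, 1, 6, 2, 3] [0, 1, 4] = true := by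
  decide +kernel

theorem gg55 : GOK sts (4, 10, [4, 5, 0, 1, 6, 2, 3], 4, 430, gU55, gB55) :=
  GOK_of (clos := [(0, 4, 5), (1, 4, 6)]) rfl gs55 gok55

theorem gs56 : gst 4 3 4 210 gH56.length [4, 5, 0, 1, 6, 3, 2] [0, 1, 4] = true := by
  decide +kernel

theorem gg56 : GOK sts (4, 10, [4, 5, 0, 1, 6, 3, 2], 4, 210, gU56, gB56) :=
  GOK_of (clos := [(0, 4, 5), (1, 4, 6)]) rfl gs56 gok56

theorem gs57 : gst 4 3 4 110 gH57.length [4, 5, 1, 0, 6, 2, 3] [0, 1, 4] = true := by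
  decide +kernel

theorem gg57 : GOK sts (4, 10, [4, 5, 1, 0, 6, 2, 3], 4, 110, gU57, gB57) :=
  GOK_of (clos := [(0, 4, 5), (1, 4, 6)]) rfl gs57 gok57

theorem gs58 : gst 4 3 4 173 gH58.length [4, 5, 1, 0, 6, 3, 2] [0, 1, 4] = true := by
  decide +kernel

theorem gg58 : GOK sts (4, 10, [4, 5, 1, 0, 6, 3, 2], 4, 173, gU58, gB58) :=
  GOK_of (clos := [(0, 4, 5), (1, 4, 6)]) rfl gs58 gok58

theorem gs59 : gst 4 3 4 256 gH59.length [4, 5, 2, 3, 6, 0, 1] [0, 1, 4] = true := by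
  decide +kernel

theorem gg59 : GOK sts (4, 10, [4, 5, 2, 3, 6, 0, 1], 4, 256, gU59, gB59) :=
  GOK_of (clos := [(0, 4, 5), (1, 4, 6)]) rfl gs59 gok59

theorem gs60 : gst 4 3 4 111 gH60.length [4, 5, 3, 2, 6, 1, 0] [0, 1, 4] = true := by
  decide +kernel

theorem gg60 : GOK sts (4, 10, [4, 5, 3, 2, 6, 1, 0], 4, 111, gU60, gB60) :=
  GOK_of (clos := [(0, 4, 5), (1, 4, 6)]) rfl gs60 gok60

theorem gs61 : gst 4 3 4 653 gH61.length [4, 0, 5, 1, 6, 2, 3] [0, 2, 4] = true := by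
  decide +kernel

theorem gg61 : GOK sts (4, 11, [4, 0, 5, 1, 6, 2, 3], 4, 653, gU61, gB61) :=
  GOK_of (clos := [(0, 4, 5), (2, 4, 6)]) rfl gs61 gok61

theorem gs62 : gst 4 3 4 150 gH62.length [4, 0, 5, 2, 6, 1, 3] [0, 2, 4] = true := by
  decide +kernel

theorem gg62 : GOK sts (4, 11, [4, 0, 5, 2, 6, 1, 3], 4, 150, gU62, gB62) :=
  GOK_of (clos := [(0, 4, 5), (2, 4, 6)]) rfl gs62 gok62

theorem gs63 : gst 4 3 4 234 gH63.length [4, 1, 5, 0, 6, 3, 2] [0, 2, 4] = true := by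
  decide +kernel

theorem gg63 : GOK sts (4, 11, [4, 1, 5, 0, 6, 3, 2], 4, 234, gU63, gB63) :=
  GOK_of (clos := [(0, 4, 5), (2, 4, 6)]) rfl gs63 gok63

theorem gs64 : gst 4 3 4 120 gH64.length [4, 1, 5, 3, 6, 0, 2] [0, 2, 4] = true := by
  decide +kernel

theorem gg64 : GOK sts (4, 11, [4, 1, 5, 3, 6, 0, 2], 4, 120, gU64, gB64) :=
  GOK_of (clos := [(0, 4, 5), (2, 4, 6)]) rfl gs64 gok64

theorem gs65 : gst 4 3 4 71 gH65.length [4, 2, 5, 3, 6, 0, 1] [0, 2, 4] = true := by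
  decide +kernel

theorem gg65 : GOK sts (4, 11, [4, 2, 5, 3, 6, 0, 1], 4, 71, gU65, gB65) :=
  GOK_of (clos := [(0, 4, 5), (2, 4, 6)]) rfl gs65 gok65

theorem gs66 : gst 4 3 4 649 gH66.length [4, 0, 1, 5, 6, 2, 3] [0, 3, 4] = true := by
  decide +kernel

theorem gg66 : GOK sts (4, 12, [4, 0, 1, 5, 6, 2, 3], 4, 649, gU66, gB66) :=
  GOK_of (clos := [(0, 4, 5), (3, 4, 6)]) rfl gs66 gok66

theorem gs67 : gst 4 3 4 74 gH67.length [4, 0, 1, 5, 6, 3, 2] [0, 3, 4] = true := by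
  decide +kernel

theorem gg67 : GOK sts (4, 12, [4, 0, 1, 5, 6, 3, 2], 4, 74, gU67, gB67) :=
  GOK_of (clos := [(0, 4, 5), (3, 4, 6)]) rfl gs67 gok67

theorem gs68 : gst 4 3 4 150 gH68.length [4, 0, 2, 5, 6, 1, 3] [0, 3, 4] = true := by
  decide +kernel

theorem gg68 : GOK sts (4, 12, [4, 0, 2, 5, 6, 1, 3], 4, 150, gU68, gB68) :=
  GOK_of (clos := [(0, 4, 5), (3, 4, 6)]) rfl gs68 gok68

theorem gs69 : gst 4 3 4 77 gH69.length [4, 1, 0, 5, 6, 2, 3] [0, 3, 4] = true := by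
  decide +kernel

theorem gg69 : GOK sts (4, 12, [4, 1, 0, 5, 6, 2, 3], 4, 77, gU69, gB69) :=
  GOK_of (clos := [(0, 4, 5), (3, 4, 6)]) rfl gs69 gok69

theorem gs70 : gst 4 3 4 266 gH70.length [4, 1, 0, 5, 6, 3, 2] [0, 3, 4] = true := by
  decide +kernel

theorem gg70 : GOK sts (4, 12, [4, 1, 0, 5, 6, 3, 2], 4, 266, gU70, gB70) :=
  GOK_of (clos := [(0, 4, 5), (3, 4, 6)]) rfl gs70 gok70

theorem gs71 : gst 4 3 4 120 gH71.length [4, 1, 3, 5, 6, 0, 2] [0, 3, 4] = true := by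
  decide +kernel

theorem gg71 : GOK sts (4, 12, [4, 1, 3, 5, 6, 0, 2], 4, 120, gU71, gB71) :=
  GOK_of (clos := [(0, 4, 5), (3, 4, 6)]) rfl gs71 gok71

theorem gs72 : gst 4 3 4 74 gH72.length [4, 2, 3, 5, 6, 0, 1] [0, 3, 4] = true := by
  decide +kernel

theorem gg72 : GOK sts (4, 12, [4, 2, 3, 5, 6, 0, 1], 4, 74, gU72, gB72) :=
  GOK_of (clos := [(0, 4, 5), (3, 4, 6)]) rfl gs72 gok72

theorem gs73 : gst 4 3 4 646 gH73.length [0, 4, 5, 1, 6, 2, 3] [1, 2, 4] = true := by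
  decide +kernel

theorem gg73 : GOK sts (4, 13, [0, 4, 5, 1, 6, 2, 3], 4, 646, gU73, gB73) :=
  GOK_of (clos := [(1, 4, 5), (2, 4, 6)]) rfl gs73 gok73

theorem gs74 : gst 4 3 4 42 gH74.length [0, 4, 5, 1, 6, 3, 2] [1, 2, 4] = true := by
  decide +kernel

theorem gg74 : GOK sts (4, 13, [0, 4, 5, 1, 6, 3, 2], 4, 42, gU74, gB74) :=
  GOK_of (clos := [(1, 4, 5), (2, 4, 6)]) rfl gs74 gok74

theorem gs75 : gst 4 3 4 123 gH75.length [0, 4, 5, 2, 6, 1, 3] [1, 2, 4] = true := by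
  decide +kernel

theorem gg75 : GOK sts (4, 13, [0, 4, 5, 2, 6, 1, 3], 4, 123, gU75, gB75) :=
  GOK_of (clos := [(1, 4, 5), (2, 4, 6)]) rfl gs75 gok75

theorem gs76 : gst 4 3 4 290 gH76.length [1, 4, 5, 0, 6, 3, 2] [1, 2, 4] = true := by
  decide +kernel

theorem gg76 : GOK sts (4, 13, [1, 4, 5, 0, 6, 3, 2], 4, 290, gU76, gB76) :=
  GOK_of (clos := [(1, 4, 5), (2, 4, 6)]) rfl gs76 gok76

theorem gs77 : gst 4 3 4 133 gH77.length [1, 4, 5, 3, 6, 0, 2] [1, 2, 4] = true := by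
  decide +kernel

theorem gg77 : GOK sts (4, 13, [1, 4, 5, 3, 6, 0, 2], 4, 133, gU77, gB77) :=
  GOK_of (clos := [(1, 4, 5), (2, 4, 6)]) rfl gs77 gok77

theorem gs78 : gst 4 3 4 662 gH78.length [0, 4, 1, 5, 6, 2, 3] [1, 3, 4] = true := by
  decide +kernel

theorem gg78 : GOK sts (4, 14, [0, 4, 1, 5, 6, 2, 3], 4, 662, gU78, gB78) :=
  GOK_of (clos := [(1, 4, 5), (3, 4, 6)]) rfl gs78 gok78

theorem gs79 : gst 4 3 4 126 gH79.length [0, 4, 1, 5, 6, 3, 2] [1, 3, 4] = true := by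
  decide +kernel

theorem gg79 : GOK sts (4, 14, [0, 4, 1, 5, 6, 3, 2], 4, 126, gU79, gB79) :=
  GOK_of (clos := [(1, 4, 5), (3, 4, 6)]) rfl gs79 gok79

theorem gs80 : gst 4 3 4 123 gH80.length [0, 4, 2, 5, 6, 1, 3] [1, 3, 4] = true := by
  decide +kernel

theorem gg80 : GOK sts (4, 14, [0, 4, 2, 5, 6, 1, 3], 4, 123, gU80, gB80) :=
  GOK_of (clos := [(1, 4, 5), (3, 4, 6)]) rfl gs80 gok80

theorem gs81 : gst 4 3 4 110 gH81.length [1, 4, 0, 5, 6, 2, 3] [1, 3, 4] = true := by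
  decide +kernel

theorem gg81 : GOK sts (4, 14, [1, 4, 0, 5, 6, 2, 3], 4, 110, gU81, gB81) :=
  GOK_of (clos := [(1, 4, 5), (3, 4, 6)]) rfl gs81 gok81

theorem gs82 : gst 4 3 4 311 gH82.length [1, 4, 0, 5, 6, 3, 2] [1, 3, 4] = true := by
  decide +kernel

theorem gg82 : GOK sts (4, 14, [1, 4, 0, 5, 6, 3, 2], 4, 311, gU82, gB82) :=
  GOK_of (clos := [(1, 4, 5), (3, 4, 6)]) rfl gs82 gok82

theorem gs83 : gst 4 3 4 133 gH83.length [1, 4, 3, 5, 6, 0, 2] [1, 3, 4] = true := by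
  decide +kernel

theorem gg83 : GOK sts (4, 14, [1, 4, 3, 5, 6, 0, 2], 4, 133, gU83, gB83) :=
  GOK_of (clos := [(1, 4, 5), (3, 4, 6)]) rfl gs83 gok83

theorem gs84 : gst 4 3 4 45 gH84.length [2, 4, 3, 5, 6, 0, 1] [1, 3, 4] = true := by
  decide +kernel

theorem gg84 : GOK sts (4, 14, [2, 4, 3, 5, 6, 0, 1], 4, 45, gU84, gB84) :=
  GOK_of (clos := [(1, 4, 5), (3, 4, 6)]) rfl gs84 gok84

theorem gs85 : gst 4 3 4 85 gH85.length [3, 4, 2, 5, 6, 1, 0] [1, 3, 4] = true := by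
  decide +kernel

theorem gg85 : GOK sts (4, 14, [3, 4, 2, 5, 6, 1, 0], 4, 85, gU85, gB85) :=
  GOK_of (clos := [(1, 4, 5), (3, 4, 6)]) rfl gs85 gok85

theorem gs86 : gst 4 3 4 418 gH86.length [0, 1, 4, 5, 6, 2, 3] [2, 3, 4] = true := by
  decide +kernel

theorem gg86 : GOK sts (4, 15, [0, 1, 4, 5, 6, 2, 3], 4, 418, gU86, gB86) :=
  GOK_of (clos := [(2, 4, 5), (3, 4, 6)]) rfl gs86 gok86

theorem gs87 : gst 4 3 4 244 gH87.length [0, 1, 4, 5, 6, 3, 2] [2, 3, 4] = true := by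
  decide +kernel

theorem gg87 : GOK sts (4, 15, [0, 1, 4, 5, 6, 3, 2], 4, 244, gU87, gB87) :=
  GOK_of (clos := [(2, 4, 5), (3, 4, 6)]) rfl gs87 gok87

theorem gs88 : gst 4 3 4 197 gH88.length [1, 0, 4, 5, 6, 2, 3] [2, 3, 4] = true := by
  decide +kernel

theorem gg88 : GOK sts (4, 15, [1, 0, 4, 5, 6, 2, 3], 4, 197, gU88, gB88) :=
  GOK_of (clos := [(2, 4, 5), (3, 4, 6)]) rfl gs88 gok88

theorem gs89 : gst 4 3 4 190 gH89.length [1, 0, 4, 5, 6, 3, 2] [2, 3, 4] = true := by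
  decide +kernel

theorem gg89 : GOK sts (4, 15, [1, 0, 4, 5, 6, 3, 2], 4, 190, gU89, gB89) :=
  GOK_of (clos := [(2, 4, 5), (3, 4, 6)]) rfl gs89 gok89

theorem gs90 : gst 4 3 4 101 gH90.length [2, 3, 4, 5, 6, 0, 1] [2, 3, 4] = true := by
  decide +kernel

theorem gg90 : GOK sts (4, 15, [2, 3, 4, 5, 6, 0, 1], 4, 101, gU90, gB90) :=
  GOK_of (clos := [(2, 4, 5), (3, 4, 6)]) rfl gs90 gok90

theorem gs91 : gst 4 3 4 45 gH91.length [3, 2, 4, 5, 6, 0, 1] [2, 3, 4] = true := by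
  decide +kernel

theorem gg91 : GOK sts (4, 15, [3, 2, 4, 5, 6, 0, 1], 4, 45, gU91, gB91) :=
  GOK_of (clos := [(2, 4, 5), (3, 4, 6)]) rfl gs91 gok91

theorem gs92 : gst 4 3 4 41 gH92.length [3, 2, 4, 5, 6, 1, 0] [2, 3, 4] = true := by
  decide +kernel

theorem gg92 : GOK sts (4, 15, [3, 2, 4, 5, 6, 1, 0], 4, 41, gU92, gB92) :=
  GOK_of (clos := [(2, 4, 5), (3, 4, 6)]) rfl gs92 gok92

theorem grps_ok : ∀ g ∈ grps, GOK sts g :=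
  List.forall_mem_cons.2 ⟨gg0,
  List.forall_mem_cons.2 ⟨gg1,
  List.forall_mem_cons.2 ⟨gg2,
  List.forall_mem_cons.2 ⟨gg3,
  List.forall_mem_cons.2 ⟨gg4,
  List.forall_mem_cons.2 ⟨gg5,
  List.forall_mem_cons.2 ⟨gg6,
  List.forall_mem_cons.2 ⟨gg7,
  List.forall_mem_cons.2 ⟨gg8,
  List.forall_mem_cons.2 ⟨gg9,
  List.forall_mem_cons.2 ⟨gg10,
  List.forall_mem_cons.2 ⟨gg11,
  List.forall_mem_cons.2 ⟨gg12,
  List.forall_mem_cons.2 ⟨gg13,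
  List.forall_mem_cons.2 ⟨gg14,
  List.forall_mem_cons.2 ⟨gg15,
  List.forall_mem_cons.2 ⟨gg16,
  List.forall_mem_cons.2 ⟨gg17,
  List.forall_mem_cons.2 ⟨gg18,
  List.forall_mem_cons.2 ⟨gg19,
  List.forall_mem_cons.2 ⟨gg20,
  List.forall_mem_cons.2 ⟨gg21,
  List.forall_mem_cons.2 ⟨gg22,
  List.forall_mem_cons.2 ⟨gg23,
  List.forall_mem_cons.2 ⟨gg24,
  List.forall_mem_cons.2 ⟨gg25,
  List.forall_mem_cons.2 ⟨gg26,
  List.forall_mem_cons.2 ⟨gg27,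
  List.forall_mem_cons.2 ⟨gg28,
  List.forall_mem_cons.2 ⟨gg29,
  List.forall_mem_cons.2 ⟨gg30,
  List.forall_mem_cons.2 ⟨gg31,
  List.forall_mem_cons.2 ⟨gg32,
  List.forall_mem_cons.2 ⟨gg33,
  List.forall_mem_cons.2 ⟨gg34,
  List.forall_mem_cons.2 ⟨gg35,
  List.forall_mem_cons.2 ⟨gg36,
  List.forall_mem_cons.2 ⟨gg37,
  List.forall_mem_cons.2 ⟨gg38,
  List.forall_mem_cons.2 ⟨gg39,
  List.forall_mem_cons.2 ⟨gg40,
  List.forall_mem_cons.2 ⟨gg41,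
  List.forall_mem_cons.2 ⟨gg42,
  List.forall_mem_cons.2 ⟨gg43,
  List.forall_mem_cons.2 ⟨gg44,
  List.forall_mem_cons.2 ⟨gg45,
  List.forall_mem_cons.2 ⟨gg46,
  List.forall_mem_cons.2 ⟨gg47,
  List.forall_mem_cons.2 ⟨gg48,
  List.forall_mem_cons.2 ⟨gg49,
  List.forall_mem_cons.2 ⟨gg50,
  List.forall_mem_cons.2 ⟨gg51,
  List.forall_mem_cons.2 ⟨gg52,
  List.forall_mem_cons.2 ⟨gg53,
  List.forall_mem_cons.2 ⟨gg54,
  List.forall_mem_cons.2 ⟨gg55,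
  List.forall_mem_cons.2 ⟨gg56,
  List.forall_mem_cons.2 ⟨gg57,
  List.forall_mem_cons.2 ⟨gg58,
  List.forall_mem_cons.2 ⟨gg59,
  List.forall_mem_cons.2 ⟨gg60,
  List.forall_mem_cons.2 ⟨gg61,
  List.forall_mem_cons.2 ⟨gg62,
  List.forall_mem_cons.2 ⟨gg63,
  List.forall_mem_cons.2 ⟨gg64,
  List.forall_mem_cons.2 ⟨gg65,
  List.forall_mem_cons.2 ⟨gg66,
  List.forall_mem_cons.2 ⟨gg67,
  List.forall_mem_cons.2 ⟨gg68,
  List.forall_mem_cons.2 ⟨gg69,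
  List.forall_mem_cons.2 ⟨gg70,
  List.forall_mem_cons.2 ⟨gg71,
  List.forall_mem_cons.2 ⟨gg72,
  List.forall_mem_cons.2 ⟨gg73,
  List.forall_mem_cons.2 ⟨gg74,
  List.forall_mem_cons.2 ⟨gg75,
  List.forall_mem_cons.2 ⟨gg76,
  List.forall_mem_cons.2 ⟨gg77,
  List.forall_mem_cons.2 ⟨gg78,
  List.forall_mem_cons.2 ⟨gg79,
  List.forall_mem_cons.2 ⟨gg80,
  List.forall_mem_cons.2 ⟨gg81,
  List.forall_mem_cons.2 ⟨gg82,
  List.forall_mem_cons.2 ⟨gg83,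
  List.forall_mem_cons.2 ⟨gg84,
  List.forall_mem_cons.2 ⟨gg85,
  List.forall_mem_cons.2 ⟨gg86,
  List.forall_mem_cons.2 ⟨gg87,
  List.forall_mem_cons.2 ⟨gg88,
  List.forall_mem_cons.2 ⟨gg89,
  List.forall_mem_cons.2 ⟨gg90,
  List.forall_mem_cons.2 ⟨gg91,
  List.forall_mem_cons.2 ⟨gg92,
  List.forall_mem_nil _⟩⟩⟩⟩⟩⟩⟩⟩⟩⟩⟩⟩⟩⟩⟩⟩⟩⟩⟩⟩⟩⟩⟩⟩⟩⟩⟩⟩⟩⟩⟩⟩⟩⟩⟩⟩⟩⟩⟩⟩⟩⟩⟩⟩⟩⟩⟩⟩⟩⟩⟩⟩⟩⟩⟩⟩⟩⟩⟩⟩⟩⟩⟩⟩⟩⟩⟩⟩⟩⟩⟩⟩⟩⟩⟩⟩⟩⟩⟩⟩⟩⟩⟩⟩⟩⟩⟩⟩⟩⟩⟩⟩⟩

end Pool.Agent.JWW
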