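import Mathlib

/-!
# Labelled pieces of cubic graphs

A piece is a finite set `F` of edges and a set `C` of vertices. A labelling of the piece gives every
edge a colour and a block such that blocks are of one colour and have at most four edges, and edges
of the same colour which meet in a vertex of `C` lie in the same block. Some edges `t 0, t 1, …` are
tracked: the number `s i` codes the block of `t i`, its colour and a bound for its size.
-/

set_option autoImplicit false

namespace Pool.Agent.JWW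

/-- the colour of a code -/
def par (x : ℕ) : ℕ := Nat.mod x 2

/-- the load of a code -/
def ld (x : ℕ) : ℕ := Nat.div x 16

variable {V : Type}

/-- the piece `F`, `C` has a labelling such that the tracked edges `t 0, …, t (n - 1)` have the
codes `s 0, …, s (n - 1)` -/
def Lab (F : Finset (Sym2 V)) (C : Finset V) (n : ℕ) (t : ℕ → Sym2 V) (s : ℕ → ℕ) : Prop :=
  ∃ (Λ : Type) (f : Sym2 V → Λ) (c : Sym2 V → ℕ),
    (∀ v ∈ C, ∀ e ∈ F, ∀ e' ∈ F, v ∈ e → v ∈ e' → c e = c e' → f e = f e') ∧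
    (∀ e ∈ F, ∀ e' ∈ F, f e = f e' → c e = c e') ∧
    (∀ e ∈ F, c e < 2 ∧ {e' | e' ∈ F ∧ f e' = f e}.ncard ≤ 4) ∧
    (∀ i < n, t i ∈ F ∧ c (t i) = par (s i) ∧ {e' | e' ∈ F ∧ f e' = f (t i)}.ncard ≤ ld (s i)) ∧
    (∀ i < n, ∀ j < n, (f (t i) = f (t j) ↔ s i = s j))

theorem finite_cls (F : Finset (Sym2 V)) (P : Sym2 V → Prop) : {e' | e' ∈ F ∧ P e'}.Finite :=
  (F.finite_toSet).subset (fun _ h => h.1)

theorem Lab.empty (t : ℕ → Sym2 V) (s : ℕ → ℕ) : Lab ∅ ∅ 0 t s :=
  ⟨Unit, fun _ => (), fun _ => 0, by simp, by simp, by simp, by simp, by simp⟩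

theorem Lab.congr {F : Finset (Sym2 V)} {C : Finset V} {n : ℕ} {t t' : ℕ → Sym2 V} {s s' : ℕ → ℕ}
    (h : Lab F C n t s) (ht : ∀ i < n, t' i = t i) (hs : ∀ i < n, s' i = s i) :
    Lab F C n t' s' := by
  obtain ⟨Λ, f, c, h1, h2, h3, h4, h5⟩ := h
  refine ⟨Λ, f, c, h1, h2, h3, ?_, ?_⟩
  · intro i hi
    rw [ht i hi, hs i hi]
    exact h4 i hi
  · intro i hi j hj
    rw [ht i hi, hs i hi, ht j hj, hs j hj]
    exact h5 i hi j hj

/-- reindexing of the tracked edges -/
theorem Lab.reindex {F : Finset (Sym2 V)} {C : Finset V} {n m : ℕ} {t : ℕ → Sym2 V} {s : ℕ → ℕ}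
    (h : Lab F C n t s) (σ : ℕ → ℕ) (hσ : ∀ i < m, σ i < n) :
    Lab F C m (fun i => t (σ i)) (fun i => s (σ i)) := by
  obtain ⟨Λ, f, c, h1, h2, h3, h4, h5⟩ := h
  exact ⟨Λ, f, c, h1, h2, h3, fun i hi => h4 _ (hσ i hi), fun i hi j hj => h5 _ (hσ i hi) _ (hσ j hj)⟩

/-- exchange of the two colours -/
def sw (x : ℕ) : ℕ := Nat.xor x 1

theorem sw_eq (x : ℕ) : sw x = if x % 2 = 0 then x + 1 else x - 1 := by
  unfold sw
  show x ^^^ 1 = _
  have h := Nat.xor_mod_two_eq (m := x) (n := 1)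
  have h2 : (x ^^^ 1) / 2 = x / 2 := by
    rw [Nat.xor_div_two]
    simp
  have h3 : (x ^^^ 1) % 2 = (x + 1) % 2 := by
    rw [h]
  split_ifs <;> omega

theorem Lab.swap {F : Finset (Sym2 V)} {C : Finset V} {n : ℕ} {t : ℕ → Sym2 V} {s : ℕ → ℕ}
    (h : Lab F C n t s) : Lab F C n t (fun i => sw (s i)) := by
  obtain ⟨Λ, f, c, h1, h2, h3, h4, h5⟩ := h
  refine ⟨Λ, f, fun e => 1 - c e, ?_, ?_, ?_, ?_, ?_⟩
  · intro v hv e he e' he' hve hve' hc
    have a := (h3 e he).1
    have a' := (h3 e' he').1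
    beta_reduce at hc
    exact h1 v hv e he e' he' hve hve' (by omega)
  · intro e he e' he' hf
    beta_reduce
    rw [h2 e he e' he' hf]
  · intro e he
    beta_reduce
    exact ⟨by omega, (h3 e he).2⟩
  · intro i hi
    obtain ⟨a1, a2, a3⟩ := h4 i hi
    have b := h3 _ a1
    refine ⟨a1, ?_, ?_⟩
    · show 1 - c (t i) = par (sw (s i))
      rw [a2, sw_eq]
      unfold par
      show 1 - s i % 2 = (if s i % 2 = 0 then s i + 1 else s i - 1) % 2
      split_ifs <;> omega
    · refine a3.trans ?_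
      beta_reduce
      rw [sw_eq]
      unfold ld
      show s i / 16 ≤ (if s i % 2 = 0 then s i + 1 else s i - 1) / 16
      split_ifs <;> omega
  · intro i hi j hj
    rw [h5 i hi j hj]
    beta_reduce
    constructor
    · intro h
      rw [h]
    · intro h
      have h' : sw (s i) = sw (s j) := h
      rw [sw_eq, sw_eq] at h'
      split_ifs at h' <;> omega

/-- a new edge in a block of its own -/
theorem Lab.add {F : Finset (Sym2 V)} [DecidableEq V] {C : Finset V} {n : ℕ} {t : ℕ → Sym2 V} {s : ℕ → ℕ}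
    (h : Lab F C n t s) (hF : t n ∉ F) (hC : ∀ v ∈ C, v ∉ t n) (hs : ∀ i < n, s i ≠ s n)
    (hl : 1 ≤ ld (s n)) : Lab (insert (t n) F) C (n + 1) t s := by
  classical
  obtain ⟨Λ, f, c, h1, h2, h3, h4, h5⟩ := h
  have key : ∀ e ∈ F, e ≠ t n := by
    intro e he h
    exact hF (h ▸ he)
  have cls : ∀ e ∈ F, {e' | e' ∈ insert (t n) F ∧
      (if e' = t n then none else some (f e')) = (if e = t n then none else some (f e))} =
      {e' | e' ∈ F ∧ f e' = f e} := by
    intro e he
    ext e'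
    simp only [Finset.mem_insert, Set.mem_ofPred_eq, if_neg (key e he)]
    constructor
    · rintro ⟨h, h'⟩
      by_cases hh : e' = t n
      · rw [if_pos hh] at h'
        cases h'
      · rw [if_neg hh] at h'
        exact ⟨h.resolve_left hh, Option.some.inj h'⟩
    · rintro ⟨h, h'⟩
      refine ⟨Or.inr h, ?_⟩
      rw [if_neg (key e' h), h']
  have cls' : {e' | e' ∈ insert (t n) F ∧
      (if e' = t n then none else some (f e')) = (none : Option Λ)} = {t n} := by
    ext e'
    simp only [Finset.mem_insert, Set.mem_ofPred_eq, Set.mem_singleton_iff]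
    constructor
    · rintro ⟨h, h'⟩
      by_contra hh
      rw [if_neg hh] at h'
      cases h'
    · intro h
      exact ⟨Or.inl h, by rw [if_pos h]⟩
  have hp : par (s n) < 2 := Nat.mod_lt _ (by norm_num)
  refine ⟨Option Λ, fun e => if e = t n then none else some (f e),
    fun e => if e = t n then par (s n) else c e, ?_, ?_, ?_, ?_, ?_⟩
  · intro v hv e he e' he' hve hve' hc
    have a : e ≠ t n := fun h => hC v hv (h ▸ hve)
    have a' : e' ≠ t n := fun h => hC v hv (h ▸ hve')
    simp only [if_neg a, if_neg a'] at hc ⊢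
    rw [Finset.mem_insert] at he he'
    rw [h1 v hv e (he.resolve_left a) e' (he'.resolve_left a') hve hve' hc]
  · intro e he e' he' hf
    rw [Finset.mem_insert] at he he'
    by_cases a : e = t n
    · by_cases a' : e' = t n
      · simp [a, a']
      · simp [a, a'] at hf
    · by_cases a' : e' = t n
      · simp [a, a'] at hf
      · simp only [if_neg a, if_neg a'] at hf ⊢
        exact h2 e (he.resolve_left a) e' (he'.resolve_left a') (Option.some.inj hf)
  · intro e he
    rw [Finset.mem_insert] at he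
    by_cases a : e = t n
    · subst a
      simp only [if_true]
      rw [cls', Set.ncard_singleton]
      exact ⟨hp, by norm_num⟩
    · have he2 := he.resolve_left a
      refine ⟨?_, ?_⟩
      · simp only [if_neg a]
        exact (h3 e he2).1
      · rw [cls e he2]
        exact (h3 e he2).2
  · intro i hi
    rcases Nat.lt_succ_iff_lt_or_eq.1 hi with hi | hi
    · obtain ⟨a1, a2, a3⟩ := h4 i hi
      refine ⟨Finset.mem_insert_of_mem a1, ?_, ?_⟩
      · beta_reduce
        rw [if_neg (key _ a1)]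
        exact a2
      · rw [cls _ a1]
        exact a3
    · subst hi
      refine ⟨Finset.mem_insert_self _ _, by simp, ?_⟩
      simp only [if_true]
      rw [cls', Set.ncard_singleton]
      exact hl
  · intro i hi j hj
    beta_reduce
    rcases Nat.lt_succ_iff_lt_or_eq.1 hi with hi | hi
    · rcases Nat.lt_succ_iff_lt_or_eq.1 hj with hj | hj
      · rw [if_neg (key _ (h4 i hi).1), if_neg (key _ (h4 j hj).1), ← h5 i hi j hj]
        exact ⟨fun h => Option.some.inj h, fun h => by rw [h]⟩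
      · subst hj
        rw [if_neg (key _ (h4 i hi).1), if_pos rfl]
        simp [hs i hi]
    · subst hi
      rcases Nat.lt_succ_iff_lt_or_eq.1 hj with hj | hj
      · rw [if_neg (key _ (h4 j hj).1), if_pos rfl]
        simp [(hs j hj).symm]
      · subst hj
        simp

/-- more vertices are closed -/
theorem Lab.close {F : Finset (Sym2 V)} {C C' : Finset V} {n : ℕ} {t : ℕ → Sym2 V} {s : ℕ → ℕ}
    (h : Lab F C n t s)
    (hC : ∀ v ∈ C', v ∉ C → ∀ e ∈ F, ∀ e' ∈ F, v ∈ e → v ∈ e' →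
      ∃ i < n, ∃ j < n, t i = e ∧ t j = e' ∧ (par (s i) = par (s j) → s i = s j)) :
    Lab F C' n t s := by
  obtain ⟨Λ, f, c, h1, h2, h3, h4, h5⟩ := h
  refine ⟨Λ, f, c, ?_, h2, h3, h4, h5⟩
  intro v hv e he e' he' hve hve' hc
  by_cases hvC : v ∈ C
  · exact h1 v hvC e he e' he' hve hve' hc
  · obtain ⟨i, hi, j, hj, rfl, rfl, hp⟩ := hC v hv hvC e he e' he' hve hve'
    rw [h5 i hi j hj]
    apply hp
    rw [← (h4 i hi).2.1, ← (h4 j hj).2.1]
    exact hc

/-- blocks of the same colour are joined, loads are increased -/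
theorem Lab.coarsen {F : Finset (Sym2 V)} {C : Finset V} {n : ℕ} {t : ℕ → Sym2 V} {s u : ℕ → ℕ}
    (h : Lab F C n t s) (FL : List (ℕ × ℕ))
    (hmem : ∀ i < n, (s i, u i) ∈ FL)
    (hpar : ∀ i < n, par (u i) = par (s i))
    (heq : ∀ i < n, ∀ j < n, s i = s j → u i = u j)
    (hload : ∀ i < n, ((FL.filter (fun x => x.2 = u i)).map (fun x => ld x.1)).sum ≤ ld (u i) ∧
      ld (u i) ≤ 4) : Lab F C n t u := by
  classical
  obtain ⟨Λ, f, c, h1, h2, h3, h4, h5⟩ := h
  have hw : ∀ e, ∀ (h : ∃ i, i < n ∧ f e = f (t i)) (j : ℕ), j < n → f e = f (t j) →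
      u (Classical.choose h) = u j := by
    intro e h j hj hf
    obtain ⟨a, b⟩ := Classical.choose_spec h
    apply heq _ a _ hj
    rw [← h5 _ a _ hj, ← b, hf]
  let g : Sym2 V → ℕ ⊕ Λ := fun e =>
    if h : ∃ i, i < n ∧ f e = f (t i) then Sum.inl (u (Classical.choose h)) else Sum.inr (f e)
  have gl : ∀ e, ∀ j < n, f e = f (t j) → g e = Sum.inl (u j) := by
    intro e j hj hf
    have hex : ∃ i, i < n ∧ f e = f (t i) := ⟨j, hj, hf⟩
    show (if h : ∃ i, i < n ∧ f e = f (t i) then Sum.inl (u (Classical.choose h)) else Sum.inr (f e)) = _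
    rw [dif_pos hex, hw e hex j hj hf]
  have gr : ∀ e, (¬ ∃ i, i < n ∧ f e = f (t i)) → g e = Sum.inr (f e) := by
    intro e hf
    show (if h : ∃ i, i < n ∧ f e = f (t i) then Sum.inl (u (Classical.choose h)) else Sum.inr (f e)) = _
    rw [dif_neg hf]
  have gf : ∀ e e', f e = f e' → g e = g e' := by
    intro e e' hf
    by_cases hex : ∃ i, i < n ∧ f e = f (t i)
    · obtain ⟨i, hi, hi'⟩ := hex
      rw [gl e i hi hi', gl e' i hi (hf ▸ hi')]
    · rw [gr e hex, gr e' (by rw [← hf]; exact hex), hf]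
  -- the size of a tracked block
  have hsz : ∀ i < n, {e' | e' ∈ F ∧ g e' = Sum.inl (u i)}.ncard ≤ ld (u i) := by
    intro i hi
    have hcls : ∀ a : ℕ, {e' | e' ∈ F ∧ ∃ j < n, s j = a ∧ f e' = f (t j)}.ncard ≤ ld a := by
      intro a
      by_cases hex : ∃ j < n, s j = a
      · obtain ⟨j, hj, rfl⟩ := hex
        refine le_trans (Set.ncard_le_ncard ?_ (finite_cls F _)) (h4 j hj).2.2
        rintro e' ⟨he', k, hk, hk', hk''⟩
        exact ⟨he', by rw [hk'', h5 k hk j hj, hk']⟩
      · have : {e' | e' ∈ F ∧ ∃ j < n, s j = a ∧ f e' = f (t j)} = ∅ := by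
          ext e'
          simp only [Set.mem_ofPred_eq, Set.mem_empty_iff_false, iff_false]
          rintro ⟨-, j, hj, hj', -⟩
          exact hex ⟨j, hj, hj'⟩
        rw [this]
        simp
    have hun : ∀ L : List (ℕ × ℕ),
        {e' | e' ∈ F ∧ ∃ x ∈ L, ∃ j < n, s j = x.1 ∧ f e' = f (t j)}.ncard ≤
          (L.map (fun x => ld x.1)).sum := by
      intro L
      induction L with
      | nil => simp
      | cons x L ih =>
        have hsub : {e' | e' ∈ F ∧ ∃ y ∈ x :: L, ∃ j < n, s j = y.1 ∧ f e' = f (t j)} ⊆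
            {e' | e' ∈ F ∧ ∃ j < n, s j = x.1 ∧ f e' = f (t j)} ∪
            {e' | e' ∈ F ∧ ∃ y ∈ L, ∃ j < n, s j = y.1 ∧ f e' = f (t j)} := by
          rintro e' ⟨he', y, hy, hj⟩
          rcases List.mem_cons.1 hy with rfl | hy
          · exact Or.inl ⟨he', hj⟩
          · exact Or.inr ⟨he', y, hy, hj⟩
        refine le_trans (Set.ncard_le_ncard hsub
          ((finite_cls F _).union (finite_cls F _))) ?_
        refine le_trans (Set.ncard_union_le _ _) ?_
        rw [List.map_cons, List.sum_cons]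
        exact Nat.add_le_add (hcls x.1) ih
    refine le_trans (Set.ncard_le_ncard ?_ (finite_cls F _))
      (le_trans (hun (FL.filter (fun x => x.2 = u i))) (hload i hi).1)
    rintro e' ⟨he', hg⟩
    refine ⟨he', ?_⟩
    by_cases hex : ∃ j, j < n ∧ f e' = f (t j)
    · obtain ⟨j, hj, hj'⟩ := hex
      rw [gl e' j hj hj'] at hg
      have huj : u j = u i := Sum.inl.inj hg
      refine ⟨(s j, u j), ?_, j, hj, rfl, hj'⟩
      rw [List.mem_filter]
      exact ⟨hmem j hj, by simp [huj]⟩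
    · rw [gr e' hex] at hg
      cases hg
  refine ⟨ℕ ⊕ Λ, g, c, ?_, ?_, ?_, ?_, ?_⟩
  · intro v hv e he e' he' hve hve' hc
    exact gf e e' (h1 v hv e he e' he' hve hve' hc)
  · intro e he e' he' hg
    by_cases hex : ∃ i, i < n ∧ f e = f (t i)
    · obtain ⟨i, hi, hi'⟩ := hex
      by_cases hex' : ∃ i, i < n ∧ f e' = f (t i)
      · obtain ⟨j, hj, hj'⟩ := hex'
        rw [gl e i hi hi', gl e' j hj hj'] at hg
        have hu : u i = u j := Sum.inl.inj hg
        rw [h2 e he _ (h4 i hi).1 hi', h2 e' he' _ (h4 j hj).1 hj', (h4 i hi).2.1, (h4 j hj).2.1,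
          ← hpar i hi, ← hpar j hj, hu]
      · rw [gl e i hi hi', gr e' hex'] at hg
        cases hg
    · by_cases hex' : ∃ i, i < n ∧ f e' = f (t i)
      · obtain ⟨j, hj, hj'⟩ := hex'
        rw [gr e hex, gl e' j hj hj'] at hg
        cases hg
      · rw [gr e hex, gr e' hex'] at hg
        exact h2 e he e' he' (Sum.inr.inj hg)
  · intro e he
    refine ⟨(h3 e he).1, ?_⟩
    by_cases hex : ∃ i, i < n ∧ f e = f (t i)
    · obtain ⟨i, hi, hi'⟩ := hex
      rw [gl e i hi hi']
      exact (hsz i hi).trans (hload i hi).2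
    · refine le_trans (Set.ncard_le_ncard ?_ (finite_cls F _)) (h3 e he).2
      rintro e' ⟨he', hg⟩
      refine ⟨he', ?_⟩
      rw [gr e hex] at hg
      by_cases hex' : ∃ i, i < n ∧ f e' = f (t i)
      · obtain ⟨j, hj, hj'⟩ := hex'
        rw [gl e' j hj hj'] at hg
        cases hg
      · rw [gr e' hex'] at hg
        exact Sum.inr.inj hg
  · intro i hi
    refine ⟨(h4 i hi).1, ?_, ?_⟩
    · rw [(h4 i hi).2.1, hpar i hi]
    · rw [gl (t i) i hi rfl]
      exact hsz i hi
  · intro i hi j hj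
    rw [gl (t i) i hi rfl, gl (t j) j hj rfl]
    exact ⟨fun h => Sum.inl.inj h, fun h => by rw [h]⟩

end Pool.Agent.JWW
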