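import Pool.Agent.JWW.Graph

/-!
# The induction over the sets of vertices
-/

set_option autoImplicit false

namespace Pool.Agent.JWW

variable {V : Type} [Fintype V] [DecidableEq V] {G : SimpleGraph V} [DecidableRel G.Adj]

/-- the certificate -/
structure Cert (NN : ℕ) (hd : ℕ → ℕ × ℕ) (grps : List Grp) (sts : List ℕ) : Prop where
  grp : ∀ g ∈ grps, GOK sts g
  row : ∀ k < NN, ∃ bl, rowOK NN hd grps k bl = true
  zero : 0 < NN ∧ hd 0 = (0, 1)

theorem Cert.le4 {NN : ℕ} {hd : ℕ → ℕ × ℕ} {grps : List Grp} {sts : List ℕ}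
    (hc : Cert NN hd grps sts) {k : ℕ} (hk : k < NN) : (hd k).1 ≤ 4 := by
  obtain ⟨bl, hrow⟩ := hc.row k hk
  exact (rowOK_proj hrow).1

/-- the states of the table `k` are realized by the set `S` -/
def Has (hd : ℕ → ℕ × ℕ) (sts : List ℕ) (G : SimpleGraph V) [DecidableRel G.Adj] (S : Finset V)
    (k : ℕ) : Prop :=
  ∃ t : ℕ → Sym2 V, (∀ i < (hd k).1, ∀ j < (hd k).1, t i = t j → i = j) ∧
    (∀ e, e ∈ bd G S ↔ ∃ i < (hd k).1, t i = e) ∧ Real sts (es G S) S t (hd k)

variable {NN : ℕ} {hd : ℕ → ℕ × ℕ} {grps : List Grp} {sts : List ℕ}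

theorem step (hc : Cert NN hd grps sts) {S S' : Finset V} {k p : ℕ} (hk : k < NN)
    (hp : (hd k).1 = p) {t : ℕ → Sym2 V} (t1 : ∀ i < p, ∀ j < p, t i = t j → i = j)
    (t2 : ∀ e, e ∈ bd G S ↔ ∃ i < p, t i = e) (t3 : Real sts (es G S) S t (hd k))
    {ti m : ℕ} {clos : List (ℕ × ℕ × ℕ)} {drop : List ℕ} (hti : ti < (tl p).length)
    (hτ : getD' (0, [], []) (tl p) ti = (m, clos, drop)) {n : ℕ → Sym2 V}
    (h1 : ∀ x < m, n x ∈ G.edgeFinset ∧ n x ∉ es G S)
    (h2 : ∀ x < m, ∀ y < m, n x = n y → x = y)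
    (h3 : ∀ e, e ∈ es G S' ↔ e ∈ es G S ∨ ∃ x < m, n x = e)
    (h4 : ∀ v ∈ S', v ∉ S → ∃ c ∈ clos, ∀ e ∈ inc G v, ∃ i < p + m,
      (i = c.1 ∨ i = c.2.1 ∨ i = c.2.2) ∧ (if i < p then t i else n (i - p)) = e)
    (h5 : ∀ e, e ∈ bd G S' ↔ ∃ i < p + m, i ∉ drop ∧ (if i < p then t i else n (i - p)) = e) :
    ∃ k' < NN, Has hd sts G S' k' := by
  obtain ⟨bl, hrow⟩ := hc.row k hk
  set tt : ℕ → Sym2 V := fun i => if i < p then t i else n (i - p) with htt
  have tl' : ∀ i < p, tt i = t i := fun i hi => by simp only [htt, if_pos hi]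
  have tr' : ∀ x, tt (p + x) = n x := fun x => by
    simp only [htt]
    rw [if_neg (by omega)]
    congr 1
    omega
  have hmem : ∀ i < p, t i ∈ es G S := fun i hi => bd_subset_es S ((t2 _).2 ⟨i, hi, rfl⟩)
  have hinj : ∀ i < p + m, ∀ j < p + m, tt i = tt j → i = j := by
    intro i hi j hj hij
    rcases lt_or_ge i p with hip | hip <;> rcases lt_or_ge j p with hjp | hjp
    · rw [tl' i hip, tl' j hjp] at hij
      exact t1 i hip j hjp hij
    · obtain ⟨y, rfl⟩ : ∃ y, j = p + y := ⟨j - p, by omega⟩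
      rw [tl' i hip, tr'] at hij
      exact absurd (hij ▸ hmem i hip) (h1 y (by omega)).2
    · obtain ⟨y, rfl⟩ : ∃ y, i = p + y := ⟨i - p, by omega⟩
      rw [tl' j hjp, tr'] at hij
      exact absurd (hij ▸ hmem j hjp) (h1 y (by omega)).2
    · obtain ⟨x, rfl⟩ : ∃ x, i = p + x := ⟨i - p, by omega⟩
      obtain ⟨y, rfl⟩ : ∃ y, j = p + y := ⟨j - p, by omega⟩
      rw [tr', tr'] at hij
      rw [h2 x (by omega) y (by omega) hij]
  have hF' : es G S ∪ (Finset.range m).image (fun x => tt (p + x)) = es G S' := by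
    ext e
    rw [Finset.mem_union, Finset.mem_image, h3]
    constructor
    · rintro (h | ⟨x, hx, hx'⟩)
      · exact Or.inl h
      · rw [tr'] at hx'
        exact Or.inr ⟨x, by simpa using hx, hx'⟩
    · rintro (h | ⟨x, hx, hx'⟩)
      · exact Or.inl h
      · refine Or.inr ⟨x, by simpa using hx, ?_⟩
        rw [tr']
        exact hx'
  have hR : Real sts (es G S) S tt (hd k) := by
    intro a ha
    exact (t3 a ha).congr (fun i hi => tl' i (hp ▸ hi)) (fun _ _ => rfl)
  obtain ⟨k', hk', ord, o1, o2, o3, o4⟩ := trans_sound (C' := S') hc.grp hrow hp hti hτ hR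
    (fun x hx => by rw [tr']; exact (h1 x hx).2)
    (fun x hx v hv hv' => by
      rw [tr'] at hv'
      exact (h1 x hx).2 ((mem_es G).2 ⟨(h1 x hx).1, v, hv, hv'⟩))
    (fun x hx y hy h => by
      rw [tr', tr'] at h
      have := h2 y (by omega) x hx h
      omega)
    (by
      intro v hv hvS e he e' he' hve hve'
      rw [hF'] at he he'
      obtain ⟨c, hc, hc'⟩ := h4 v hv hvS
      obtain ⟨i, hi, hi', hi''⟩ := hc' e ((mem_inc G).2 ⟨((mem_es G).1 he).1, hve⟩)
      obtain ⟨j, hj, hj', hj''⟩ := hc' e' ((mem_inc G).2 ⟨((mem_es G).1 he').1, hve'⟩)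
      exact ⟨c, hc, i, hi, j, hj, hi', hj', hi'', hj''⟩)
  rw [hF'] at o4
  refine ⟨k', hk', fun y => tt (ord y), ?_, ?_, o4⟩
  · intro y hy z hz hyz
    exact o3 y hy z hz (hinj _ (o1 y hy).1 _ (o1 z hz).1 hyz)
  · intro e
    rw [h5]
    constructor
    · rintro ⟨i, hi, hi', hi''⟩
      obtain ⟨y, hy, rfl⟩ := o2 i hi hi'
      exact ⟨y, hy, hi''⟩
    · rintro ⟨y, hy, hy'⟩
      exact ⟨ord y, (o1 y hy).1, (o1 y hy).2, hy'⟩

/-- a new vertex -/
theorem attach_aux (hc : Cert NN hd grps sts) {S : Finset V} {v : V} (hv : v ∉ S) {k p : ℕ}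
    (hk : k < NN) (hp : (hd k).1 = p) {t : ℕ → Sym2 V} (t1 : ∀ i < p, ∀ j < p, t i = t j → i = j)
    (t2 : ∀ e, e ∈ bd G S ↔ ∃ i < p, t i = e) (t3 : Real sts (es G S) S t (hd k))
    {ti m : ℕ} {c : ℕ × ℕ × ℕ} {L : List ℕ} (hti : ti < (tl p).length)
    (hτ : getD' (0, [], []) (tl p) ti = (m, [c], L))
    (hL : ∀ i, i ∈ L ↔ i < p ∧ v ∈ t i) (hm : (inc G v \ es G S).card = m)
    (hcc : ∀ i < p + m, (i < p → v ∈ t i) → (i = c.1 ∨ i = c.2.1 ∨ i = c.2.2)) :
    ∃ k' < NN, Has hd sts G (insert v S) k' := by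
  have : Nonempty (Sym2 V) := ⟨s(v, v)⟩
  obtain ⟨n, n1, n2, n3⟩ := enum (inc G v \ es G S)
  rw [hm] at n1 n2 n3
  have n1' : ∀ x < m, n x ∈ inc G v ∧ n x ∉ es G S := fun x hx => Finset.mem_sdiff.1 (n1 x hx)
  have n2' : ∀ e, e ∈ inc G v → e ∉ es G S → ∃ x < m, n x = e := fun e h h' =>
    n2 e (Finset.mem_sdiff.2 ⟨h, h'⟩)
  refine step hc (n := n) hk hp t1 t2 t3 hti hτ ?_ n3 ?_ ?_ ?_
  · intro x hx
    exact ⟨((mem_inc G).1 (n1' x hx).1).1, (n1' x hx).2⟩
  · intro e
    rw [es_insert, Finset.mem_union]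
    constructor
    · rintro (h | h)
      · exact Or.inl h
      · by_cases he : e ∈ es G S
        · exact Or.inl he
        · exact Or.inr (n2' e h he)
    · rintro (h | ⟨x, hx, rfl⟩)
      · exact Or.inl h
      · exact Or.inr (n1' x hx).1
  · intro w hw hwS
    have hwv : w = v := by
      rcases Finset.mem_insert.1 hw with h | h
      · exact h
      · exact absurd h hwS
    subst hwv
    refine ⟨c, by simp, ?_⟩
    intro e he
    by_cases heS : e ∈ es G S
    · obtain ⟨i, hi, hi'⟩ := (t2 e).1 (mem_bd_of hv he heS)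
      refine ⟨i, by omega, hcc i (by omega) (fun _ => ?_), by rw [if_pos hi]; exact hi'⟩
      rw [hi']
      exact ((mem_inc G).1 he).2
    · obtain ⟨x, hx, hx'⟩ := n2' e he heS
      refine ⟨p + x, by omega, hcc _ (by omega) (fun h => by omega), ?_⟩
      rw [if_neg (by omega), ← hx']
      congr 1
      omega
  · intro e
    rw [bd_insert hv]
    constructor
    · rintro (⟨h, h'⟩ | ⟨h, h'⟩)
      · obtain ⟨i, hi, hi'⟩ := (t2 e).1 h
        refine ⟨i, by omega, ?_, by rw [if_pos hi]; exact hi'⟩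
        rw [hL]
        rintro ⟨-, h2⟩
        rw [hi'] at h2
        exact h' h2
      · obtain ⟨x, hx, hx'⟩ := n2' e h h'
        refine ⟨p + x, by omega, ?_, ?_⟩
        · rw [hL]
          omega
        · rw [if_neg (by omega), ← hx']
          congr 1
          omega
    · rintro ⟨i, hi, hi', hi''⟩
      rcases lt_or_ge i p with hip | hip
      · rw [if_pos hip] at hi''
        left
        refine ⟨(t2 e).2 ⟨i, hip, hi''⟩, ?_⟩
        intro h
        apply hi'
        rw [hL]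
        exact ⟨hip, by rw [hi'']; exact h⟩
      · rw [if_neg (by omega)] at hi''
        right
        rw [← hi'']
        exact n1' _ (by omega)

/-- the poles at an outer vertex -/
theorem poles_at {S : Finset V} {v : V} (hv : v ∉ S) {p : ℕ} {t : ℕ → Sym2 V}
    (t1 : ∀ i < p, ∀ j < p, t i = t j → i = j) (t2 : ∀ e, e ∈ bd G S ↔ ∃ i < p, t i = e) :
    ((Finset.range p).filter (fun i => v ∈ t i)).card = nb G S v := by
  unfold nb
  refine Finset.card_bij (fun i _ => t i) ?_ ?_ ?_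
  · intro i hi
    rw [Finset.mem_filter, Finset.mem_range] at hi
    have h1 := (t2 (t i)).2 ⟨i, hi.1, rfl⟩
    rw [Finset.mem_inter]
    exact ⟨(mem_inc G).2 ⟨((mem_bd G).1 h1).1, hi.2⟩, bd_subset_es S h1⟩
  · intro i hi j hj hij
    rw [Finset.mem_filter, Finset.mem_range] at hi hj
    exact t1 i hi.1 j hj.1 hij
  · intro e he
    rw [Finset.mem_inter] at he
    obtain ⟨i, hi, hi'⟩ := (t2 e).1 (mem_bd_of hv he.1 he.2)
    refine ⟨i, ?_, hi'⟩
    rw [Finset.mem_filter, Finset.mem_range, hi']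
    exact ⟨hi, ((mem_inc G).1 he.1).2⟩

theorem tl_one (p : ℕ) (hp : p < 4) (h0 : 0 < p) (a : ℕ) (ha : a < p) : ∃ ti : Fin (tl p).length,
    getD' (0, [], []) (tl p) ti = (2, [(a, p, p + 1)], [a]) := by
  interval_cases p <;> interval_cases a <;> decide

theorem tl_two (p : ℕ) (hp : p < 5) (b : ℕ) (hb : b < p) (a : ℕ) (ha : a < b) :
    ∃ ti : Fin (tl p).length, getD' (0, [], []) (tl p) ti = (1, [(a, b, p)], [a, b]) := by
  interval_cases p <;> interval_cases b <;> interval_cases a <;> decide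

theorem tl_three (p : ℕ) (hp : p < 5) (c : ℕ) (hc : c < p) (b : ℕ) (hb : b < c) (a : ℕ)
    (ha : a < b) :
    ∃ ti : Fin (tl p).length, getD' (0, [], []) (tl p) ti = (0, [(a, b, c)], [a, b, c]) := by
  interval_cases p <;> interval_cases c <;> interval_cases b <;> interval_cases a <;> decide

theorem tl_zero (p : ℕ) (hp : p < 2) : ∃ ti : Fin (tl p).length,
    getD' (0, [], []) (tl p) ti = (3, [(p, p + 1, p + 2)], []) := by
  interval_cases p <;> decide

theorem tl_double (b : ℕ) (hb : b < 4) (a : ℕ) (ha : a < b) : ∃ ti : Fin (tl 4).length,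
    getD' (0, [], []) (tl 4) ti = (3, [(a, 4, 5), (b, 4, 6)], [a, b, 4]) := by
  interval_cases b <;> interval_cases a <;> decide

theorem attach (hc : Cert NN hd grps sts) (hG : G.IsRegularOfDegree 3) {S : Finset V} {v : V}
    (hv : v ∉ S) {k : ℕ} (hk : k < NN) (h : Has hd sts G S k)
    (hnb : (nb G S v = 0 ∧ (hd k).1 ≤ 1) ∨ (nb G S v = 1 ∧ (hd k).1 ≤ 3) ∨ 2 ≤ nb G S v) :
    ∃ k' < NN, Has hd sts G (insert v S) k' := by
  obtain ⟨t, t1, t2, t3⟩ := h
  have hp4 : (hd k).1 ≤ 4 := hc.le4 hk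
  have hcard := poles_at hv t1 t2
  have hsd := card_sdiff_inc hG S v
  generalize hp : (hd k).1 = p at *
  set I := (Finset.range p).filter (fun i => v ∈ t i) with hI
  have hmemI : ∀ i, i ∈ I ↔ i < p ∧ v ∈ t i := by
    intro i
    rw [hI, Finset.mem_filter, Finset.mem_range]
  have hle : nb G S v ≤ 3 := by omega
  -- the sorted list
  have hsort : ∀ i, i ∈ I.sort (· ≤ ·) ↔ i ∈ I := fun i => Finset.mem_sort _
  have hlen : (I.sort (· ≤ ·)).length = nb G S v := by rw [Finset.length_sort, hcard]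
  have hsorted : (I.sort (· ≤ ·)).Pairwise (· < ·) := Finset.sortedLT_sort I |>.pairwise
  generalize I.sort (· ≤ ·) = L at *
  have hL : ∀ i, i ∈ L ↔ i < p ∧ v ∈ t i := fun i => by rw [hsort, hmemI]
  rcases L with _ | ⟨a, _ | ⟨b, _ | ⟨c, _ | ⟨d, L⟩⟩⟩⟩
  · -- no neighbour
    simp only [List.length_nil] at hlen
    have hp1 : p ≤ 1 := by omega
    obtain ⟨⟨ti, hti⟩, hτ⟩ := tl_zero p (by omega)
    refine attach_aux hc hv hk hp t1 t2 t3 hti hτ hL (by omega) ?_
    intro i hi hip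
    rcases lt_or_ge i p with h | h
    · have := (hL i).2 ⟨h, hip h⟩
      simp at this
    · show i = p ∨ i = p + 1 ∨ i = p + 2
      omega
  · simp only [List.length_cons, List.length_nil] at hlen
    have hp1 : p ≤ 3 := by omega
    have ha := (hL a).1 (by simp)
    obtain ⟨⟨ti, hti⟩, hτ⟩ := tl_one p (by omega) (by omega) a ha.1
    refine attach_aux hc hv hk hp t1 t2 t3 hti hτ hL (by omega) ?_
    intro i hi hip
    rcases lt_or_ge i p with h | h
    · have := (hL i).2 ⟨h, hip h⟩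
      simp at this
      exact Or.inl this
    · show i = a ∨ i = p ∨ i = p + 1
      omega
  · simp only [List.length_cons, List.length_nil] at hlen
    have ha := (hL a).1 (by simp)
    have hb := (hL b).1 (by simp)
    have hab : a < b := by
      simp only [List.pairwise_cons, List.mem_singleton] at hsorted
      exact hsorted.1 b rfl
    obtain ⟨⟨ti, hti⟩, hτ⟩ := tl_two p (by omega) b hb.1 a hab
    refine attach_aux hc hv hk hp t1 t2 t3 hti hτ hL (by omega) ?_
    intro i hi hip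
    rcases lt_or_ge i p with h | h
    · have := (hL i).2 ⟨h, hip h⟩
      simp at this
      rcases this with h | h
      · exact Or.inl h
      · exact Or.inr (Or.inl h)
    · show i = a ∨ i = b ∨ i = p
      omega
  · simp only [List.length_cons, List.length_nil] at hlen
    have ha := (hL a).1 (by simp)
    have hb := (hL b).1 (by simp)
    have hc' := (hL c).1 (by simp)
    have hab : a < b ∧ b < c := by
      simp only [List.pairwise_cons, List.mem_cons] at hsorted
      exact ⟨hsorted.1 b (Or.inl rfl), hsorted.2.1 c (by simp)⟩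
    obtain ⟨⟨ti, hti⟩, hτ⟩ := tl_three p (by omega) c hc'.1 b hab.2 a hab.1
    refine attach_aux hc hv hk hp t1 t2 t3 hti hτ hL (by omega) ?_
    intro i hi hip
    have h : i < p := by omega
    have := (hL i).2 ⟨h, hip h⟩
    simp at this
    exact this
  · simp only [List.length_cons] at hlen
    omega

end Pool.Agent.JWW
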